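import Mathlib

/-!
# The sequence of top differing digits

`dl x y` is the top binary digit in which `x` and `y` differ; `D X` is the list of the numbers
`dl` of consecutive members of the list `X`.
-/

namespace Pool.Agent.L7h44.TW

/-- the top binary digit in which `x` and `y` differ (for `x ≠ y`) -/
noncomputable def dl (x y : ℕ) : ℕ := sInf {t | x / 2 ^ (t + 1) = y / 2 ^ (t + 1)}

theorem dl_set_up {x y t u : ℕ} (h : x / 2 ^ (t + 1) = y / 2 ^ (t + 1)) (htu : t ≤ u) :
    x / 2 ^ (u + 1) = y / 2 ^ (u + 1) := by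
  obtain ⟨d, rfl⟩ := Nat.exists_eq_add_of_le htu
  rw [show t + d + 1 = (t + 1) + d by ring, pow_add, ← Nat.div_div_eq_div_mul,
    ← Nat.div_div_eq_div_mul, h]

theorem dl_nonempty (x y : ℕ) : {t | x / 2 ^ (t + 1) = y / 2 ^ (t + 1)}.Nonempty := by
  refine ⟨x + y, ?_⟩
  have h : x + y + 1 < 2 ^ (x + y + 1) := Nat.lt_two_pow_self
  show x / 2 ^ (x + y + 1) = y / 2 ^ (x + y + 1)
  rw [Nat.div_eq_of_lt (by omega), Nat.div_eq_of_lt (by omega)]

theorem dl_spec (x y : ℕ) : x / 2 ^ (dl x y + 1) = y / 2 ^ (dl x y + 1) :=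
  Nat.sInf_mem (dl_nonempty x y)

theorem dl_le {x y t : ℕ} (h : x / 2 ^ (t + 1) = y / 2 ^ (t + 1)) : dl x y ≤ t :=
  Nat.sInf_le h

theorem dl_lower {x y : ℕ} (h : x < y) : x / 2 ^ (dl x y) < y / 2 ^ (dl x y) := by
  refine lt_of_le_of_ne (Nat.div_le_div_right h.le) fun heq => ?_
  rcases hd : dl x y with _ | u
  · rw [hd] at heq; simp at heq; omega
  · rw [hd] at heq
    have := dl_le heq
    omega

theorem dl_max {x y z : ℕ} (h1 : x < y) (h2 : y < z) : dl x z = max (dl x y) (dl y z) := by
  apply le_antisymm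
  · apply dl_le
    rw [dl_set_up (dl_spec x y) (le_max_left _ (dl y z)),
      dl_set_up (dl_spec y z) (le_max_right (dl x y) _)]
  · have h := dl_spec x z
    have h3 : x / 2 ^ (dl x z + 1) ≤ y / 2 ^ (dl x z + 1) := Nat.div_le_div_right h1.le
    have h4 : y / 2 ^ (dl x z + 1) ≤ z / 2 ^ (dl x z + 1) := Nat.div_le_div_right h2.le
    apply max_le
    · exact dl_le (by omega)
    · exact dl_le (by omega)

theorem dl_ne {x y z : ℕ} (h1 : x < y) (h2 : y < z) : dl x y ≠ dl y z := by
  intro heq
  have a1 := dl_lower h1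
  have a2 := dl_lower h2
  have b1 := dl_spec x y
  have b2 := dl_spec y z
  rw [heq] at a1 b1
  rw [pow_succ, ← Nat.div_div_eq_div_mul, ← Nat.div_div_eq_div_mul] at b1 b2
  omega

theorem dl_lt {x y N : ℕ} (hx : x < 2 ^ N) (hy : y < 2 ^ N) (h : x < y) : dl x y < N := by
  rcases N with _ | N
  · simp at hx hy; omega
  · have : dl x y ≤ N := dl_le (by rw [Nat.div_eq_of_lt hx, Nat.div_eq_of_lt hy])
    omega

/-- the list of the top differing digits of consecutive members -/
noncomputable def D : List ℕ → List ℕ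
  | [] => []
  | [_] => []
  | x :: y :: l => dl x y :: D (y :: l)

@[simp] theorem D_nil : D [] = [] := rfl
@[simp] theorem D_one (x : ℕ) : D [x] = [] := rfl
@[simp] theorem D_cons (x y : ℕ) (l : List ℕ) : D (x :: y :: l) = dl x y :: D (y :: l) := rfl

theorem D_length : ∀ X : List ℕ, (D X).length = X.length - 1
  | [] => rfl
  | [_] => rfl
  | x :: y :: l => by
    rw [D_cons, List.length_cons, D_length (y :: l)]
    simp

theorem D_lt {N : ℕ} : ∀ {X : List ℕ}, X.Pairwise (· < ·) → (∀ x ∈ X, x < 2 ^ N) →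
    ∀ d ∈ D X, d < N
  | [], _, _ => by simp
  | [_], _, _ => by simp
  | x :: y :: l, hp, hX => by
    intro d hd
    rw [D_cons, List.mem_cons] at hd
    rcases hd with rfl | hd
    · exact dl_lt (hX _ (by simp)) (hX _ (by simp)) ((List.pairwise_cons.1 hp).1 y (by simp))
    · exact D_lt (List.pairwise_cons.1 hp).2 (fun z hz => hX z (List.mem_cons_of_mem _ hz)) d hd

/-- equal entries of the list are separated by a larger entry -/
def Sep (L : List ℕ) : Prop :=
  ∀ A a B C, L = A ++ a :: (B ++ a :: C) → ∃ b ∈ B, a < b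

theorem Sep.mid {L A V B : List ℕ} (h : Sep L) (hL : L = A ++ V ++ B) : Sep V := by
  intro A' a B' C' hV
  refine h (A ++ A') a B' (C' ++ B) ?_
  rw [hL, hV]; simp

theorem sep_aux : ∀ (B : List ℕ) (x y a : ℕ) (Y C : List ℕ), (x :: y :: Y).Pairwise (· < ·) →
    D (x :: y :: Y) = a :: (B ++ a :: C) → ∃ b ∈ B, a < b := by
  intro B
  induction B with
  | nil =>
    intro x y a Y C hp hD
    exfalso
    cases Y with
    | nil => simp at hD
    | cons z Y =>
      simp only [D_cons, List.nil_append, List.cons.injEq] at hD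
      have hxy : x < y := (List.pairwise_cons.1 hp).1 y (by simp)
      have hyz : y < z := (List.pairwise_cons.1 (List.pairwise_cons.1 hp).2).1 z (by simp)
      exact dl_ne hxy hyz (by rw [hD.1, hD.2.1])
  | cons b B ih =>
    intro x y a Y C hp hD
    cases Y with
    | nil => simp at hD
    | cons z Y =>
      simp only [D_cons, List.cons_append, List.cons.injEq] at hD
      have hxy : x < y := (List.pairwise_cons.1 hp).1 y (by simp)
      have hyz : y < z := (List.pairwise_cons.1 (List.pairwise_cons.1 hp).2).1 z (by simp)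
      by_cases hb : a < b
      · exact ⟨b, by simp, hb⟩
      · have hxz : dl x z = a := by
          rw [dl_max hxy hyz, hD.1, hD.2.1]; omega
        have hp' : (x :: z :: Y).Pairwise (· < ·) := by
          refine hp.sublist ?_
          exact List.Sublist.cons_cons _ (List.Sublist.cons _ (List.Sublist.refl _))
        obtain ⟨b', hb', hab⟩ := ih x z a Y C hp' (by rw [D_cons, hxz, hD.2.2])
        exact ⟨b', List.mem_cons_of_mem _ hb', hab⟩

theorem D_sep : ∀ {X : List ℕ}, X.Pairwise (· < ·) → Sep (D X)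
  | [], _ => by intro A a B C h; simp at h
  | [_], _ => by intro A a B C h; simp at h
  | x :: y :: l, hp => by
    intro A a B C h
    cases A with
    | nil => exact sep_aux B x y a l C hp h
    | cons a' A =>
      rw [D_cons, List.cons_append, List.cons.injEq] at h
      exact D_sep (List.pairwise_cons.1 hp).2 A a B C h.2

/-- `L1` arises from `L` by removing an entry which is the first or the last or is smaller than
a neighbouring entry -/
def Rem (L L1 : List ℕ) : Prop :=
  ∃ A e B, L = A ++ e :: B ∧ L1 = A ++ B ∧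
    (A = [] ∨ B = [] ∨ (∃ A' x, A = A' ++ [x] ∧ e < x) ∨ (∃ x B', B = x :: B' ∧ e < x))

theorem D_split : ∀ {X A B : List ℕ} {e : ℕ}, D X = A ++ e :: B →
    ∃ X1 x y X2, X = X1 ++ x :: y :: X2 ∧ D (X1 ++ [x]) = A ∧ dl x y = e ∧ D (y :: X2) = B
  | [], A, B, e, h => by simp at h
  | [_], A, B, e, h => by simp at h
  | x :: y :: l, [], B, e, h => by
    rw [D_cons, List.nil_append, List.cons.injEq] at h
    exact ⟨[], x, y, l, rfl, rfl, h.1, h.2⟩
  | x :: y :: l, a :: A, B, e, h => by
    rw [D_cons, List.cons_append, List.cons.injEq] at h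
    obtain ⟨X1, x', y', X2, h1, h2, h3, h4⟩ := D_split h.2
    refine ⟨x :: X1, x', y', X2, by rw [h1]; rfl, ?_, h3, h4⟩
    cases X1 with
    | nil =>
      simp only [List.nil_append, List.cons.injEq] at h1
      rw [← h2, ← h.1, h1.1]; rfl
    | cons z X1 =>
      simp only [List.cons_append, List.cons.injEq] at h1
      rw [← h2, ← h.1, h1.1]; rfl

theorem D_append : ∀ (X1 : List ℕ) (x : ℕ) (X2 : List ℕ),
    D (X1 ++ x :: X2) = D (X1 ++ [x]) ++ D (x :: X2)
  | [], x, X2 => rfl
  | [a], x, X2 => rfl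
  | a :: b :: X1, x, X2 => by
    have := D_append (b :: X1) x X2
    simp only [List.cons_append, D_cons] at this ⊢
    rw [this]

theorem D_rem {X L1 : List ℕ} (hp : X.Pairwise (· < ·)) (h : Rem (D X) L1) :
    ∃ x ∈ X, D (X.erase x) = L1 := by
  obtain ⟨A, e, B, hD, rfl, hr⟩ := h
  obtain ⟨X1, x, y, X2, rfl, h2, h3, h4⟩ := D_split hD
  have hnd : (X1 ++ x :: y :: X2).Nodup := hp.imp (fun h => ne_of_lt h)
  have hpp := List.pairwise_append.1 hp
  have hxX1 : x ∉ X1 := fun hx => absurd (hpp.2.2 x hx x (by simp)) (lt_irrefl _)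
  have hyX1 : y ∉ X1 := fun hx => absurd (hpp.2.2 y hx y (by simp)) (lt_irrefl _)
  have hxy : x < y := (List.pairwise_cons.1 hpp.2.1).1 y (by simp)
  have ex : (X1 ++ x :: y :: X2).erase x = X1 ++ y :: X2 := by
    rw [List.erase_append_right _ hxX1]; simp
  have ey : (X1 ++ x :: y :: X2).erase y = X1 ++ x :: X2 := by
    rw [List.erase_append_right _ hyX1, List.erase_cons_tail (by simpa using hxy.ne)]; simp
  rcases hr with rfl | rfl | ⟨A', a, rfl, ha⟩ | ⟨b, B', rfl, hb⟩
  · -- `A = []`
    have hX1 : X1 = [] := by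
      cases X1 with
      | nil => rfl
      | cons a X1 => cases X1 <;> simp at h2
    subst hX1
    refine ⟨x, by simp, ?_⟩
    rw [ex]; simpa using h4
  · have hX2 : X2 = [] := by
      cases X2 with
      | nil => rfl
      | cons a X2 => simp at h4
    subst hX2
    refine ⟨y, by simp, ?_⟩
    rw [ey]; simpa using h2
  · -- the previous entry is larger: erase `x`
    refine ⟨x, by simp, ?_⟩
    rw [ex]
    rcases List.eq_nil_or_concat X1 with rfl | ⟨X1', w, rfl⟩
    · simp at h2
    · rw [List.concat_eq_append] at *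
      have hwx : w < x := hpp.2.2 w (by simp) x (by simp)
      have e1 : D (X1' ++ [w] ++ [x]) = D (X1' ++ [w]) ++ [dl w x] := by
        rw [List.append_assoc, List.singleton_append, D_append]; rfl
      rw [e1] at h2
      have h5 := List.append_inj' h2 rfl
      have h6 : dl w x = a := by simpa using h5.2
      rw [List.append_assoc, List.singleton_append, D_append, D_cons, h4, ← h5.1, dl_max hwx hxy,
        h6, h3, max_eq_left ha.le]
      simp
  · refine ⟨y, by simp, ?_⟩
    rw [ey]
    cases X2 with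
    | nil => simp at h4
    | cons z X2 =>
      rw [D_cons, List.cons.injEq] at h4
      have hyz : y < z := (List.pairwise_cons.1 (List.pairwise_cons.1 hpp.2.1).2).1 z (by simp)
      rw [D_append, D_cons, h2, dl_max hxy hyz, h3, h4.1, max_eq_right hb.le, h4.2]

end Pool.Agent.L7h44.TW
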