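import Mathlib
import Pool.Agent.L7h44.TW.Delta

/-!
# Blocks

The internal local maxima (peaks) of a list split it into blocks.
-/

namespace Pool.Agent.L7h44.TW

/-- the blocks into which the peaks split a list -/
def blocks : List ℕ → List (List ℕ)
  | [] => [[]]
  | [a] => [[a]]
  | [a, b] => [[a, b]]
  | a :: b :: c :: l =>
    if a < b ∧ c < b then [a] :: blocks (c :: l)
    else match blocks (b :: c :: l) with
      | [] => [[a]]
      | B :: Bs => (a :: B) :: Bs

theorem blocks_nil : blocks [] = [[]] := by simp [blocks]
theorem blocks_one (a : ℕ) : blocks [a] = [[a]] := by simp [blocks]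
theorem blocks_two (a b : ℕ) : blocks [a, b] = [[a, b]] := by simp [blocks]
theorem blocks_peak {a b c : ℕ} (l : List ℕ) (h : a < b ∧ c < b) :
    blocks (a :: b :: c :: l) = [a] :: blocks (c :: l) := by
  rw [blocks, if_pos h]

theorem blocks_ne_nil : ∀ L : List ℕ, blocks L ≠ []
  | [] => by simp [blocks]
  | [a] => by simp [blocks]
  | [a, b] => by simp [blocks]
  | a :: b :: c :: l => by
    by_cases h : a < b ∧ c < b
    · rw [blocks_peak l h]; simp
    · rw [blocks, if_neg h]
      split <;> simp

theorem blocks_cons {a b c : ℕ} (l : List ℕ) (h : ¬ (a < b ∧ c < b)) {B : List ℕ}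
    {Bs : List (List ℕ)} (hB : blocks (b :: c :: l) = B :: Bs) :
    blocks (a :: b :: c :: l) = (a :: B) :: Bs := by
  rw [blocks, if_neg h, hB]

theorem blocks_two' {a b : ℕ} {l : List ℕ} (h : ∀ c ∈ l.head?, ¬ (a < b ∧ c < b)) {B : List ℕ}
    {Bs : List (List ℕ)} (hB : blocks (b :: l) = B :: Bs) :
    blocks (a :: b :: l) = (a :: B) :: Bs := by
  cases l with
  | nil =>
    rw [blocks_one] at hB
    simp only [List.cons.injEq] at hB
    rw [blocks_two, ← hB.1, ← hB.2]
  | cons c l => exact blocks_cons l (h c (by simp)) hB

/-- a peak splits the list of blocks -/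
theorem blocks_split : ∀ (A : List ℕ) (a P b : ℕ) (B : List ℕ), a < P → b < P →
    blocks ((A ++ [a]) ++ P :: b :: B) = blocks (A ++ [a]) ++ blocks (b :: B)
  | [], a, P, b, B, ha, hb => by
    rw [List.nil_append, List.singleton_append, blocks_peak B ⟨ha, hb⟩, blocks_one]; rfl
  | [x], a, P, b, B, ha, hb => by
    have ih := blocks_split [] a P b B ha hb
    rw [List.nil_append, List.singleton_append, blocks_one] at ih
    simp only [List.cons_append, List.nil_append] at ih ⊢
    rw [blocks_cons _ (by omega) ih, blocks_two]; rfl
  | x :: y :: A, a, P, b, B, ha, hb => by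
    by_cases hc : ∀ c ∈ (A ++ [a]).head?, ¬ (x < y ∧ c < y)
    · have ih := blocks_split (y :: A) a P b B ha hb
      obtain ⟨V, Vs, hV⟩ := List.exists_cons_of_ne_nil (blocks_ne_nil ((y :: A) ++ [a]))
      rw [hV, List.cons_append] at ih
      simp only [List.cons_append] at ih hV ⊢
      rw [blocks_two' hc hV, blocks_two' ?_ ih]
      · rfl
      · cases A with
        | nil => simpa using hc
        | cons c A => simpa using hc
    · push Not at hc
      obtain ⟨c, hc, hcxy⟩ := hc
      cases A with
      | nil =>
        simp at hc; subst hc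
        have ih := blocks_split [] a P b B ha hb
        simp only [List.cons_append, List.nil_append] at ih ⊢
        rw [blocks_peak _ hcxy, blocks_peak _ hcxy, ih]; rfl
      | cons c' A =>
        simp at hc; subst hc
        have ih := blocks_split (c' :: A) a P b B ha hb
        simp only [List.cons_append] at ih ⊢
        rw [blocks_peak _ hcxy, blocks_peak _ hcxy, ih]; rfl

/-- splitting a list between two of its blocks -/
theorem split_exists : ∀ (L : List ℕ) (Bs1 Bs2 : List (List ℕ)), blocks L = Bs1 ++ Bs2 →
    Bs1 ≠ [] → Bs2 ≠ [] → ∃ A a P b B, L = (A ++ [a]) ++ P :: b :: B ∧ a < P ∧ b < P ∧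
      blocks (A ++ [a]) = Bs1 ∧ blocks (b :: B) = Bs2
  | [], Bs1, Bs2, h, h1, h2 => by
    exfalso
    rw [blocks_nil] at h
    cases Bs1 with
    | nil => exact h1 rfl
    | cons V Bs1 =>
      simp only [List.cons_append, List.cons.injEq] at h
      exact h2 (List.append_eq_nil_iff.1 h.2.symm).2
  | [a], Bs1, Bs2, h, h1, h2 => by
    exfalso
    rw [blocks_one] at h
    cases Bs1 with
    | nil => exact h1 rfl
    | cons V Bs1 =>
      simp only [List.cons_append, List.cons.injEq] at h
      exact h2 (List.append_eq_nil_iff.1 h.2.symm).2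
  | [a, b], Bs1, Bs2, h, h1, h2 => by
    exfalso
    rw [blocks_two] at h
    cases Bs1 with
    | nil => exact h1 rfl
    | cons V Bs1 =>
      simp only [List.cons_append, List.cons.injEq] at h
      exact h2 (List.append_eq_nil_iff.1 h.2.symm).2
  | x :: y :: z :: l, Bs1, Bs2, h, h1, h2 => by
    by_cases hc : x < y ∧ z < y
    · rw [blocks_peak l hc] at h
      cases Bs1 with
      | nil => exact absurd rfl h1
      | cons V Bs1 =>
        simp only [List.cons_append, List.cons.injEq] at h
        rcases eq_or_ne Bs1 [] with rfl | hB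
        · exact ⟨[], x, y, z, l, rfl, hc.1, hc.2, by rw [List.nil_append, blocks_one, h.1],
            by simpa using h.2⟩
        · obtain ⟨A, a, P, b, B, e1, e2, e3, e4, e5⟩ := split_exists (z :: l) Bs1 Bs2 h.2 hB h2
          refine ⟨x :: y :: A, a, P, b, B, by rw [e1]; rfl, e2, e3, ?_, e5⟩
          cases A with
          | nil =>
            simp only [List.nil_append, List.cons_append, List.cons.injEq] at e1 e4 ⊢
            rw [blocks_peak _ (by rw [← e1.1]; exact hc), e4, h.1]
          | cons a' A =>
            simp only [List.cons_append, List.cons.injEq] at e1 e4 ⊢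
            rw [blocks_peak _ (by rw [← e1.1]; exact hc), e4, h.1]
    · obtain ⟨V, Vs, hV⟩ := List.exists_cons_of_ne_nil (blocks_ne_nil (y :: z :: l))
      rw [blocks_cons l hc hV] at h
      cases Bs1 with
      | nil => exact absurd rfl h1
      | cons W Bs1 =>
        simp only [List.cons_append, List.cons.injEq] at h
        obtain ⟨A, a, P, b, B, e1, e2, e3, e4, e5⟩ := split_exists (y :: z :: l) (V :: Bs1) Bs2
          (by rw [hV, h.2]; rfl) (by simp) h2
        refine ⟨x :: A, a, P, b, B, by rw [e1]; rfl, e2, e3, ?_, e5⟩
        cases A with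
        | nil =>
          simp only [List.nil_append, List.cons_append, List.cons.injEq] at e1 e4 ⊢
          rw [blocks_one, List.cons.injEq] at e4
          rw [blocks_two, ← h.1, ← e4.1, ← e4.2]
        | cons a' A =>
          simp only [List.cons_append, List.cons.injEq] at e1 e4 ⊢
          rw [blocks_two' ?_ e4, h.1]
          rw [← e1.1]
          cases A with
          | nil =>
            simp only [List.nil_append, List.cons_append, List.cons.injEq] at e1
            rw [← e1.2.1]; simpa using hc
          | cons c A =>
            simp only [List.cons_append, List.cons.injEq] at e1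
            rw [← e1.2.1]; simpa using hc
termination_by L => L.length

/-- a list with one block is its block -/
theorem blocks_single : ∀ {L V : List ℕ}, blocks L = [V] → V = L
  | [], V, h => by rw [blocks_nil] at h; simpa using h.symm
  | [a], V, h => by rw [blocks_one] at h; simpa using h.symm
  | [a, b], V, h => by rw [blocks_two] at h; simpa using h.symm
  | a :: b :: c :: l, V, h => by
    by_cases hc : a < b ∧ c < b
    · rw [blocks_peak l hc] at h
      simp only [List.cons.injEq] at h
      exact absurd h.2 (blocks_ne_nil _)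
    · obtain ⟨W, Ws, hW⟩ := List.exists_cons_of_ne_nil (blocks_ne_nil (b :: c :: l))
      rw [blocks_cons l hc hW] at h
      simp only [List.cons.injEq] at h
      rw [h.2] at hW
      rw [← h.1, blocks_single hW]

/-- the first block of a list -/
theorem head_block {L V : List ℕ} {Bs : List (List ℕ)} (hL : L ≠ []) (h : blocks L = V :: Bs) :
    V ≠ [] ∧ blocks V = [V] ∧ ∃ post, L = V ++ post ∧
      (post = [] ∨ ∃ P post', post = P :: post' ∧ ∀ x ∈ V.getLast?, x < P) ∧
      ∀ V' : List ℕ, V' ≠ [] → blocks V' = [V'] →
        (∀ x ∈ V'.getLast?, ∃ y ∈ V.getLast?, x ≤ y) → blocks (V' ++ post) = V' :: Bs := by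
  rcases eq_or_ne Bs [] with rfl | hB
  · have e := blocks_single h
    subst e
    refine ⟨hL, h, [], by simp, Or.inl rfl, ?_⟩
    intro V' _ hV' _
    simpa using hV'
  · obtain ⟨A, a, P, b, B, e1, e2, e3, e4, e5⟩ := split_exists L [V] Bs h (by simp) hB
    have e := blocks_single e4
    subst e
    refine ⟨by simp, e4, P :: b :: B, e1, Or.inr ⟨P, b :: B, rfl, by simpa using e2⟩, ?_⟩
    intro V' h0 h1 h2
    rcases List.eq_nil_or_concat V' with rfl | ⟨W, w, rfl⟩
    · exact absurd rfl h0
    · rw [List.concat_eq_append] at *
      have hw : w ≤ a := by simpa using h2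
      rw [blocks_split W w P b B (by omega) e3, h1, e5]; rfl

/-- replacing a block -/
theorem replace {L V : List ℕ} {Bs1 Bs2 : List (List ℕ)} (hL : L ≠ [])
    (h : blocks L = Bs1 ++ V :: Bs2) :
    V ≠ [] ∧ blocks V = [V] ∧ ∃ pre post, L = pre ++ V ++ post ∧
      (pre = [] ∨ ∃ pre' P, pre = pre' ++ [P] ∧ ∀ x ∈ V.head?, x < P) ∧
      (post = [] ∨ ∃ P post', post = P :: post' ∧ ∀ x ∈ V.getLast?, x < P) ∧
      ∀ V' : List ℕ, V' ≠ [] → blocks V' = [V'] →
        (∀ x ∈ V'.head?, ∃ y ∈ V.head?, x ≤ y) → (∀ x ∈ V'.getLast?, ∃ y ∈ V.getLast?, x ≤ y) →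
        blocks (pre ++ V' ++ post) = Bs1 ++ V' :: Bs2 := by
  rcases eq_or_ne Bs1 [] with rfl | hB
  · obtain ⟨h1, h2, post, h3, h4, h5⟩ := head_block hL h
    refine ⟨h1, h2, [], post, by simpa using h3, Or.inl rfl, h4, ?_⟩
    intro V' a1 a2 a3 a4
    simpa using h5 V' a1 a2 a4
  · obtain ⟨A, a, P, b, B, e1, e2, e3, e4, e5⟩ := split_exists L Bs1 (V :: Bs2) h hB (by simp)
    obtain ⟨h1, h2, post, h3, h4, h5⟩ := head_block (L := b :: B) (by simp) e5
    refine ⟨h1, h2, A ++ [a] ++ [P], post, ?_, Or.inr ⟨A ++ [a], P, rfl, ?_⟩, h4, ?_⟩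
    · rw [e1, h3]; simp
    · obtain ⟨v, V0, rfl⟩ := List.exists_cons_of_ne_nil h1
      simp only [List.cons_append, List.cons.injEq] at h3
      simp only [List.head?_cons, Option.mem_def, Option.some.injEq]
      rintro x rfl; rw [← h3.1]; exact e3
    · intro V' a1 a2 a3 a4
      obtain ⟨v, V0, rfl⟩ := List.exists_cons_of_ne_nil h1
      obtain ⟨v', V0', rfl⟩ := List.exists_cons_of_ne_nil a1
      simp only [List.cons_append, List.cons.injEq] at h3
      have hv : v' ≤ v := by simpa using a3
      have := h5 (v' :: V0') a1 a2 a4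
      rw [List.cons_append] at this
      have e : A ++ [a] ++ [P] ++ v' :: V0' ++ post = (A ++ [a]) ++ P :: v' :: (V0' ++ post) := by
        simp
      rw [e, blocks_split A a P v' _ e2 (by omega), e4, this]

/-- extending the last block -/
theorem blocks_snoc : ∀ (A : List ℕ) (a P : ℕ) (V : List ℕ) (Bs : List (List ℕ)), a < P →
    blocks (A ++ [a]) = Bs ++ [V] → blocks (A ++ [a] ++ [P]) = Bs ++ [V ++ [P]]
  | [], a, P, V, Bs, ha, h => by
    rw [List.nil_append, blocks_one] at h
    cases Bs with
    | nil =>
      simp only [List.nil_append, List.cons.injEq] at h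
      simp only [List.nil_append, List.cons_append]
      rw [blocks_two, ← h.1]; rfl
    | cons W Bs => simp at h
  | [x], a, P, V, Bs, ha, h => by
    simp only [List.cons_append, List.nil_append] at h ⊢
    rw [blocks_two] at h
    cases Bs with
    | nil =>
      simp only [List.nil_append, List.cons.injEq] at h
      rw [blocks_cons _ (by omega) (blocks_two a P), ← h.1]; rfl
    | cons W Bs => simp at h
  | x :: y :: A, a, P, V, Bs, ha, h => by
    by_cases hc : ∀ c ∈ (A ++ [a]).head?, ¬ (x < y ∧ c < y)
    · have hc' : ∀ c ∈ (A ++ [a] ++ [P]).head?, ¬ (x < y ∧ c < y) := by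
        cases A with
        | nil => simpa using hc
        | cons c A => simpa using hc
      obtain ⟨W, Ws, hW⟩ := List.exists_cons_of_ne_nil (blocks_ne_nil ((y :: A) ++ [a]))
      simp only [List.cons_append] at h hW ⊢
      rw [blocks_two' hc hW] at h
      cases Bs with
      | nil =>
        simp only [List.nil_append, List.cons.injEq] at h
        have ih := blocks_snoc (y :: A) a P W [] ha (by simp only [List.cons_append]; rw [hW, h.2]; rfl)
        rw [List.nil_append] at ih ⊢
        simp only [List.cons_append] at ih ⊢
        rw [blocks_two' hc' ih, ← h.1]; rfl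
      | cons U Bs =>
        simp only [List.cons_append, List.cons.injEq] at h
        have ih := blocks_snoc (y :: A) a P V (W :: Bs) ha
          (by simp only [List.cons_append]; rw [hW, h.2])
        simp only [List.cons_append] at ih ⊢
        rw [blocks_two' hc' ih, h.1]
    · push Not at hc
      obtain ⟨c, hc, hcxy⟩ := hc
      cases A with
      | nil =>
        simp at hc; subst hc
        simp only [List.cons_append, List.nil_append] at h ⊢
        rw [blocks_peak _ hcxy, blocks_one] at h
        rw [blocks_peak _ hcxy, blocks_two]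
        cases Bs with
        | nil => simp at h
        | cons U Bs =>
          simp only [List.cons_append, List.cons.injEq] at h
          cases Bs with
          | nil =>
            simp only [List.nil_append, List.cons.injEq] at h
            rw [h.1, ← h.2.1]; rfl
          | cons U' Bs => simp at h
      | cons c' A =>
        simp at hc; subst hc
        simp only [List.cons_append] at h ⊢
        rw [blocks_peak _ hcxy] at h
        rw [blocks_peak _ hcxy]
        cases Bs with
        | nil =>
          simp only [List.nil_append, List.cons.injEq] at h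
          exact absurd h.2 (blocks_ne_nil _)
        | cons U Bs =>
          simp only [List.cons_append, List.cons.injEq] at h
          have ih := blocks_snoc (c' :: A) a P V Bs ha h.2
          simp only [List.cons_append] at ih
          rw [ih, h.1]; rfl

end Pool.Agent.L7h44.TW
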