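import Mathlib
import Pool.Agent.L7h44.TW.Blocks

/-!
# The shape of the blocks
-/

namespace Pool.Agent.L7h44.TW

/-- removing a block of size one between two peaks -/
theorem removal {L V1 V2 : List ℕ} {v : ℕ} {Bs1 Bs2 : List (List ℕ)}
    (h : blocks L = Bs1 ++ V1 :: [v] :: V2 :: Bs2) :
    ∃ A P Q B, L = A ++ P :: v :: Q :: B ∧ v < P ∧
      (P < Q → blocks (A ++ P :: Q :: B) = Bs1 ++ (V1 ++ [P]) :: V2 :: Bs2) ∧
      (Q < P → blocks (A ++ P :: Q :: B) = Bs1 ++ V1 :: (Q :: V2) :: Bs2) := by
  obtain ⟨A, a, P, b, B, e1, e2, e3, e4, e5⟩ := split_exists L (Bs1 ++ [V1]) ([v] :: V2 :: Bs2)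
    (by rw [h]; simp) (by simp) (by simp)
  obtain ⟨A2, a2, Q, b2, B2, f1, f2, f3, f4, f5⟩ := split_exists (b :: B) [[v]] (V2 :: Bs2)
    (by rw [e5]; rfl) (by simp) (by simp)
  have f6 := blocks_single f4
  cases A2 with
  | cons c A2 => simp at f6
  | nil =>
    simp only [List.nil_append, List.cons.injEq, List.cons_append] at f6 f1
    obtain ⟨rfl, _⟩ := f6
    obtain ⟨rfl, rfl⟩ := f1
    refine ⟨A ++ [a], P, Q, b2 :: B2, e1, e3, ?_, ?_⟩
    · intro hPQ
      have h1 := blocks_snoc A a P V1 Bs1 e2 e4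
      have h2 := blocks_split (A ++ [a]) P Q b2 B2 hPQ f3
      rw [h1, f5] at h2
      simpa using h2
    · intro hQP
      have h1 := blocks_split A a P Q (b2 :: B2) e2 hQP
      rw [e4, blocks_two' (fun c _ => by omega) f5] at h1
      simpa using h1

/-- decreasing, then increasing -/
def Vsh (V : List ℕ) : Prop :=
  ∃ A B, V = A ++ B ∧ A.Pairwise (· > ·) ∧ B.Pairwise (· < ·)

theorem blocks_inc : ∀ {U : List ℕ}, U.Pairwise (· < ·) → blocks U = [U]
  | [], _ => blocks_nil
  | [a], _ => blocks_one a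
  | [a, b], _ => blocks_two a b
  | a :: b :: c :: l, h => by
    have h' := (List.pairwise_cons.1 h).2
    have hbc : b < c := (List.pairwise_cons.1 h').1 c (by simp)
    exact blocks_cons l (by omega) (blocks_inc h')

theorem Vsh.blocks_aux : ∀ (A B : List ℕ), A.Pairwise (· > ·) → B.Pairwise (· < ·) →
    blocks (A ++ B) = [A ++ B]
  | [], B, _, hB => blocks_inc hB
  | [a], [], _, _ => blocks_one a
  | [a], [b], _, _ => blocks_two a b
  | [a], b :: c :: B, _, hB => by
    have hbc : b < c := (List.pairwise_cons.1 hB).1 c (by simp)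
    simp only [List.cons_append, List.nil_append]
    exact blocks_cons B (by omega) (blocks_inc hB)
  | a :: a' :: A, B, hA, hB => by
    have ha : a' < a := (List.pairwise_cons.1 hA).1 a' (by simp)
    have ih := Vsh.blocks_aux (a' :: A) B (List.pairwise_cons.1 hA).2 hB
    simp only [List.cons_append] at ih ⊢
    exact blocks_two' (fun c _ => by omega) ih

theorem Vsh.blocks {V : List ℕ} (h : Vsh V) : blocks V = [V] := by
  obtain ⟨A, B, rfl, hA, hB⟩ := h
  exact Vsh.blocks_aux A B hA hB

theorem Vsh.sublist {V W : List ℕ} (h : Vsh V) (hW : W.Sublist V) : Vsh W := by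
  obtain ⟨A, B, rfl, hA, hB⟩ := h
  obtain ⟨A', B', rfl, h1, h2⟩ := List.sublist_append_iff.1 hW
  exact ⟨A', B', rfl, hA.sublist h1, hB.sublist h2⟩

theorem vsh_of_blocks : ∀ {V : List ℕ}, Sep V → blocks V = [V] → Vsh V
  | [], _, _ => ⟨[], [], rfl, List.Pairwise.nil, List.Pairwise.nil⟩
  | [a], _, _ => ⟨[], [a], rfl, List.Pairwise.nil, List.pairwise_singleton _ _⟩
  | [a, b], hs, _ => by
    have hab : a ≠ b := by
      rintro rfl
      obtain ⟨c, hc, _⟩ := hs [] a [] [] rfl
      simp at hc
    exact ⟨[a], [b], rfl, List.pairwise_singleton _ _, List.pairwise_singleton _ _⟩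
  | a :: b :: c :: l, hs, h => by
    have hab : a ≠ b := by
      rintro rfl
      obtain ⟨c, hc, _⟩ := hs [] a [] (c :: l) rfl
      simp at hc
    have hbc : b ≠ c := by
      rintro rfl
      obtain ⟨c, hc, _⟩ := hs [a] b [] l rfl
      simp at hc
    by_cases hc : a < b ∧ c < b
    · rw [blocks_peak l hc] at h
      simp at h
    · obtain ⟨W, Ws, hW⟩ := List.exists_cons_of_ne_nil (blocks_ne_nil (b :: c :: l))
      rw [blocks_cons l hc hW] at h
      simp only [List.cons.injEq, true_and] at h
      obtain ⟨rfl, rfl⟩ := h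
      have hs' : Sep (b :: c :: l) := hs.mid (A := [a]) (B := []) (by simp)
      obtain ⟨A, B, e, hA, hB⟩ := vsh_of_blocks hs' hW
      cases A with
      | nil =>
        exact ⟨[a], b :: c :: l, rfl, List.pairwise_singleton _ _, by
          rw [List.nil_append] at e; rw [e]; exact hB⟩
      | cons b' A =>
        simp only [List.cons_append, List.cons.injEq] at e
        obtain ⟨rfl, e⟩ := e
        rcases lt_or_gt_of_ne hab with hlt | hgt
        · have hcb : b < c := by omega
          have hA' : A = [] := by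
            cases A with
            | nil => rfl
            | cons c' A =>
              simp only [List.cons_append, List.cons.injEq] at e
              have : c' < b := (List.pairwise_cons.1 hA).1 c' (by simp)
              omega
          subst hA'
          rw [List.nil_append] at e
          subst e
          refine ⟨[a], b :: c :: l, rfl, List.pairwise_singleton _ _, ?_⟩
          refine List.pairwise_cons.2 ⟨?_, hB⟩
          intro x hx
          rcases List.mem_cons.1 hx with rfl | hx
          · exact hcb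
          · have := (List.pairwise_cons.1 hB).1 x hx
            omega
        · refine ⟨a :: b :: A, B, by rw [e]; rfl, ?_, hB⟩
          refine List.pairwise_cons.2 ⟨?_, hA⟩
          intro x hx
          rcases List.mem_cons.1 hx with rfl | hx
          · exact hgt
          · have := (List.pairwise_cons.1 hA).1 x hx
            omega

theorem Vsh.nodup {V : List ℕ} (hs : Sep V) (h : Vsh V) : V.Nodup := by
  obtain ⟨A, B, rfl, hA, hB⟩ := h
  refine List.nodup_append.2 ⟨hA.imp (fun h => ne_of_gt h), hB.imp (fun h => ne_of_lt h), ?_⟩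
  intro a ha b hb hab
  subst hab
  obtain ⟨A1, A2, rfl⟩ := List.append_of_mem ha
  obtain ⟨B1, B2, rfl⟩ := List.append_of_mem hb
  obtain ⟨c, hc, hac⟩ := hs A1 a (A2 ++ B1) B2 (by simp)
  rcases List.mem_append.1 hc with hc | hc
  · have := (List.pairwise_cons.1 (List.pairwise_append.1 hA).2.1).1 c hc
    omega
  · have := (List.pairwise_append.1 hB).2.2 c hc a (by simp)
    omega

/-- the entries of a block which are not the first, the last, or the smallest entry -/
def core (V : List ℕ) : List ℕ :=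
  V.filter (fun x => V.head? ≠ some x ∧ V.getLast? ≠ some x ∧ ∃ y ∈ V, y < x)

/-- the recorded entries of a block -/
def R (V : List ℕ) : List ℕ := (core V).tail

theorem mem_core {V : List ℕ} {x : ℕ} : x ∈ core V ↔ x ∈ V ∧ V.head? ≠ some x ∧
    V.getLast? ≠ some x ∧ ∃ y ∈ V, y < x := by
  simp [core]

theorem core_nodup {V : List ℕ} (h : V.Nodup) : (core V).Nodup := h.filter _

theorem R_nodup {V : List ℕ} (h : V.Nodup) : (R V).Nodup := (core_nodup h).tail

theorem mem_core_of_mem_R {V : List ℕ} {x : ℕ} (h : x ∈ R V) : x ∈ core V :=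
  List.mem_of_mem_tail h

theorem R_sub {V : List ℕ} {x : ℕ} (h : x ∈ R V) : x ∈ V :=
  (mem_core.1 (mem_core_of_mem_R h)).1

theorem core_length {V : List ℕ} (h : V.Nodup) : V.length ≤ (core V).length + 3 := by
  rcases List.eq_nil_or_concat V with rfl | ⟨W, w, rfl⟩
  · simp
  rw [List.concat_eq_append] at *
  set V := W ++ [w] with hV
  have hne : V ≠ [] := by simp [hV]
  obtain ⟨a, V0, ha⟩ := List.exists_cons_of_ne_nil hne
  have hf : V.toFinset.Nonempty := ⟨a, by rw [ha]; simp⟩
  set m := V.toFinset.min' hf with hm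
  have hsub : V.toFinset ⊆ (core V).toFinset ∪ {a, w, m} := by
    intro x hx
    rw [List.mem_toFinset] at hx
    rw [Finset.mem_union, List.mem_toFinset, mem_core]
    by_cases h1 : x = a
    · right; simp [h1]
    by_cases h2 : x = w
    · right; simp [h2]
    by_cases h3 : x = m
    · right; simp [h3]
    left
    refine ⟨hx, ?_, ?_, m, ?_, ?_⟩
    · rw [ha]; simpa using fun h => h1 h.symm
    · rw [hV]; simpa using fun h => h2 h.symm
    · exact List.mem_toFinset.1 (Finset.min'_mem _ hf)
    · exact lt_of_le_of_ne (Finset.min'_le _ _ (List.mem_toFinset.2 hx)) (Ne.symm h3)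
  have h1 := Finset.card_le_card hsub
  have h2 := Finset.card_union_le (core V).toFinset {a, w, m}
  have h3 : ({a, w, m} : Finset ℕ).card ≤ 3 := Finset.card_le_three
  rw [List.toFinset_card_of_nodup h] at h1
  rw [List.toFinset_card_of_nodup (core_nodup h)] at h2
  omega

theorem R_length {V : List ℕ} (h : V.Nodup) : V.length ≤ (R V).length + 4 := by
  have := core_length h
  rw [R, List.length_tail]
  omega

/-- facts about erasing a recorded entry -/
theorem core_decomp {V : List ℕ} {r : ℕ} (hs : Vsh V) (hr : r ∈ core V) :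
    ∃ A x y B, (V = (A ++ [x]) ++ r :: y :: B) ∧ (r < x ∨ r < y) := by
  obtain ⟨h1, h2, h3, _⟩ := mem_core.1 hr
  obtain ⟨P, Q, e, hP, hQ⟩ := hs
  have hV : ∃ A0 B0, V = A0 ++ r :: B0 := List.append_of_mem h1
  -- `A0` and `B0` are nonempty
  have key : ∀ A0 B0, V = A0 ++ r :: B0 → A0 ≠ [] ∧ B0 ≠ [] := by
    intro A0 B0 e0
    constructor
    · rintro rfl
      exact h2 (by rw [e0]; rfl)
    · rintro rfl
      exact h3 (by rw [e0]; simp)
  rw [e] at h1
  rcases List.mem_append.1 h1 with hm | hm
  · obtain ⟨A0, B0, rfl⟩ := List.append_of_mem hm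
    obtain ⟨k1, k2⟩ := key A0 (B0 ++ Q) (by rw [e]; simp)
    rcases List.eq_nil_or_concat A0 with rfl | ⟨A1, x, rfl⟩
    · exact absurd rfl k1
    · obtain ⟨y, B1, hy⟩ := List.exists_cons_of_ne_nil k2
      rw [List.concat_eq_append] at *
      refine ⟨A1, x, y, B1, ?_, Or.inl ?_⟩
      · rw [e, ← hy]; simp
      · exact (List.pairwise_append.1 hP).2.2 x (by simp) r (by simp)
  · obtain ⟨A0, B0, rfl⟩ := List.append_of_mem hm
    obtain ⟨k1, k2⟩ := key (P ++ A0) B0 (by rw [e]; simp)
    rcases List.eq_nil_or_concat (P ++ A0) with h0 | ⟨A1, x, h0⟩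
    · exact absurd h0 k1
    · obtain ⟨y, B1, rfl⟩ := List.exists_cons_of_ne_nil k2
      rw [List.concat_eq_append] at *
      refine ⟨A1, x, y, B1, ?_, Or.inr ?_⟩
      · rw [e, ← h0]; simp
      · exact (List.pairwise_cons.1 (List.pairwise_append.1 hQ).2.1).1 y (by simp)

theorem core_erase {V : List ℕ} {r : ℕ} (hn : V.Nodup) (hs : Vsh V) (hr : r ∈ core V) :
    core (V.erase r) = (core V).erase r := by
  obtain ⟨A, x, y, B, e, _⟩ := core_decomp hs hr
  obtain ⟨h1, h2, h3, z, hz, hzr⟩ := mem_core.1 hr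
  have hrA : r ∉ A ++ [x] := by
    intro hmem
    rw [e] at hn
    exact (List.nodup_append.1 hn).2.2 r hmem r (by simp) rfl
  have e' : V.erase r = (A ++ [x]) ++ y :: B := by
    rw [e, List.erase_append_right _ hrA]; simp
  have hh : (V.erase r).head? = V.head? := by
    rw [e', e]; cases A <;> simp
  have hl : (V.erase r).getLast? = V.getLast? := by
    rw [e', e]
    simp only [List.getLast?_append, List.getLast?_cons_cons]
  rw [List.Nodup.erase_eq_filter (core_nodup hn), core, core, hh, hl, hn.erase_eq_filter,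
    List.filter_filter, List.filter_filter]
  apply List.filter_congr
  intro u hu
  rw [eq_comm]
  simp only [ne_eq, decide_not, Bool.decide_and]
  rw [Bool.eq_iff_iff]
  simp only [Bool.and_eq_true, decide_eq_true_eq, bne_iff_ne, ne_eq, Bool.not_eq_true',
    decide_eq_false_iff_not, List.mem_filter]
  constructor
  · rintro ⟨a1, a2, a3, w, hw, hwu⟩
    refine ⟨⟨a2, a3, ?_⟩, a1⟩
    by_cases hwr : w = r
    · exact ⟨z, ⟨hz, by omega⟩, by omega⟩
    · exact ⟨w, ⟨hw, hwr⟩, hwu⟩
  · rintro ⟨⟨a2, a3, w, ⟨hw, _⟩, hwu⟩, a1⟩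
    exact ⟨a1, a2, a3, w, hw, hwu⟩

theorem R_erase {V : List ℕ} {r : ℕ} (hn : V.Nodup) (hs : Vsh V) (hr : r ∈ R V) :
    R (V.erase r) = (R V).erase r := by
  rw [R, core_erase hn hs (mem_core_of_mem_R hr), R]
  have hn' := core_nodup hn
  rw [R] at hr
  cases hc : core V with
  | nil => rw [hc] at hr; simp at hr
  | cons h t =>
    rw [hc] at hr hn'
    simp only [List.tail_cons] at hr ⊢
    have : h ≠ r := by
      rintro rfl
      exact (List.nodup_cons.1 hn').1 hr
    rw [List.erase_cons_tail (by simpa using this)]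
    rfl

theorem R_len {V : List ℕ} {r : ℕ} (hn : V.Nodup) (hs : Vsh V) (hr : r ∈ R V) :
    4 ≤ V.length := by
  have hn' := core_nodup hn
  obtain ⟨s, hs1, hs2⟩ : ∃ s ∈ core V, s ≠ r := by
    rw [R] at hr
    cases hc : core V with
    | nil => rw [hc] at hr; simp at hr
    | cons h t =>
      rw [hc] at hr hn'
      simp only [List.tail_cons] at hr
      refine ⟨h, by simp, ?_⟩
      rintro rfl
      exact (List.nodup_cons.1 hn').1 hr
  obtain ⟨A, x, y, B, e, _⟩ := core_decomp hs (mem_core_of_mem_R hr)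
  obtain ⟨h1, h2, h3, _⟩ := mem_core.1 hs1
  rw [e] at h1 h2 h3 ⊢
  by_contra hlt
  have hA : A = [] := by
    rw [← List.length_eq_zero_iff]
    simp at hlt; omega
  have hB : B = [] := by
    rw [← List.length_eq_zero_iff]
    simp at hlt; omega
  subst hA; subst hB
  simp at h1 h2 h3
  rcases h1 with h | h | h
  · exact h2 h.symm
  · exact hs2 h
  · exact h3 h.symm

end Pool.Agent.L7h44.TW
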