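import Mathlib

/-!
# Parities of block sizes
-/

namespace Pool.Agent.L7h44.TW

/-- first window: blocks `1, 2, 3` have size one, some block `4, …, 9` has not -/
def K (s : ℕ → ℕ) : ℕ :=
  if (s 1 = 1 ∧ s 2 = 1 ∧ s 3 = 1) ∧ (s 4 ≠ 1 ∨ s 5 ≠ 1 ∨ s 6 ≠ 1 ∨ s 7 ≠ 1 ∨ s 8 ≠ 1 ∨ s 9 ≠ 1)
  then 1 else 0

/-- second window: blocks `10, 11` have size one, one of the blocks `12, 13` has not -/
def KM (s : ℕ → ℕ) : ℕ :=
  if (s 10 = 1 ∧ s 11 = 1) ∧ (s 12 ≠ 1 ∨ s 13 ≠ 1) then 1 else 0

/-- the colour of sequences with many blocks -/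
def v (s : ℕ → ℕ) : ℕ :=
  (s 1 + s 2 + s 3 + s 4 + s 5 + s 6 + s 7 + s 8 + s 9 + K s) % 2

/-- the sign of sequences with few blocks -/
def w (s : ℕ → ℕ) : ℕ := (K s + KM s) % 2

/-- sizes after reducing block `i` -/
def red (s : ℕ → ℕ) (i : ℕ) : ℕ → ℕ := fun j => if j = i then s i - 1 else s j

/-- sizes after removing block `i`, first possibility -/
def rmL (s : ℕ → ℕ) (i : ℕ) : ℕ → ℕ :=
  fun j => if j + 1 < i then s j else if j + 1 = i then s j + 1 else s (j + 1)

/-- sizes after removing block `i`, second possibility -/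
def rmR (s : ℕ → ℕ) (i : ℕ) : ℕ → ℕ :=
  fun j => if j < i then s j else if j = i then s (j + 1) + 1 else s (j + 1)

/-- the exceptional case: at most one of the blocks `1, …, 9` has size two, the others have size
one, and the blocks `1, 2, 3` have size one -/
def Exc (s : ℕ → ℕ) : Prop :=
  (s 1 = 1 ∧ s 2 = 1 ∧ s 3 = 1) ∧ s 4 + s 5 + s 6 + s 7 + s 8 + s 9 ≤ 7

theorem K_congr {s t : ℕ → ℕ} (h : ∀ i, s i = 1 ↔ t i = 1) : K s = K t := by
  simp only [K, h, ne_eq]

theorem KM_congr {s t : ℕ → ℕ} (h : ∀ i, s i = 1 ↔ t i = 1) : KM s = KM t := by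
  simp only [KM, h, ne_eq]

theorem w_congr {s t : ℕ → ℕ} (h : ∀ i, s i = 1 ↔ t i = 1) : w s = w t := by
  rw [w, w, K_congr h, KM_congr h]

theorem flip_reduce {s : ℕ → ℕ} (hs : ∀ i, 1 ≤ s i) (he : ¬ Exc s) :
    ∃ i, 1 ≤ i ∧ i ≤ 9 ∧ 2 ≤ s i ∧ v (red s i) ≠ v s := by
  have h1 := hs 1
  have h2 := hs 2
  have h3 := hs 3
  have h4 := hs 4
  have h5 := hs 5
  have h6 := hs 6
  have h7 := hs 7
  have h8 := hs 8
  have h9 := hs 9
  simp only [Exc] at he
  by_cases hL : s 1 = 1 ∧ s 2 = 1 ∧ s 3 = 1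
  · -- excess at least two on the right
    by_cases a4 : 2 ≤ s 4
    · refine ⟨4, by norm_num, by norm_num, a4, ?_⟩
      simp only [v, K, red]
      simp
      split_ifs <;> omega
    by_cases a5 : 2 ≤ s 5
    · refine ⟨5, by norm_num, by norm_num, a5, ?_⟩
      simp only [v, K, red]
      simp
      split_ifs <;> omega
    by_cases a6 : 2 ≤ s 6
    · refine ⟨6, by norm_num, by norm_num, a6, ?_⟩
      simp only [v, K, red]
      simp
      split_ifs <;> omega
    by_cases a7 : 2 ≤ s 7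
    · refine ⟨7, by norm_num, by norm_num, a7, ?_⟩
      simp only [v, K, red]
      simp
      split_ifs <;> omega
    by_cases a8 : 2 ≤ s 8
    · refine ⟨8, by norm_num, by norm_num, a8, ?_⟩
      simp only [v, K, red]
      simp
      split_ifs <;> omega
    · refine ⟨9, by norm_num, by norm_num, by omega, ?_⟩
      simp only [v, K, red]
      simp
      split_ifs <;> omega
  · by_cases hR : s 4 = 1 ∧ s 5 = 1 ∧ s 6 = 1 ∧ s 7 = 1 ∧ s 8 = 1 ∧ s 9 = 1
    · by_cases a1 : 2 ≤ s 1
      · refine ⟨1, by norm_num, by norm_num, a1, ?_⟩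
        simp only [v, K, red]
        simp
        split_ifs <;> omega
      by_cases a2 : 2 ≤ s 2
      · refine ⟨2, by norm_num, by norm_num, a2, ?_⟩
        simp only [v, K, red]
        simp
        split_ifs <;> omega
      · refine ⟨3, by norm_num, by norm_num, by omega, ?_⟩
        simp only [v, K, red]
        simp
        split_ifs <;> omega
    · by_cases a4 : 2 ≤ s 4
      · refine ⟨4, by norm_num, by norm_num, a4, ?_⟩
        simp only [v, K, red]
        simp
        split_ifs <;> omega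
      by_cases a5 : 2 ≤ s 5
      · refine ⟨5, by norm_num, by norm_num, a5, ?_⟩
        simp only [v, K, red]
        simp
        split_ifs <;> omega
      by_cases a6 : 2 ≤ s 6
      · refine ⟨6, by norm_num, by norm_num, a6, ?_⟩
        simp only [v, K, red]
        simp
        split_ifs <;> omega
      by_cases a7 : 2 ≤ s 7
      · refine ⟨7, by norm_num, by norm_num, a7, ?_⟩
        simp only [v, K, red]
        simp
        split_ifs <;> omega
      by_cases a8 : 2 ≤ s 8
      · refine ⟨8, by norm_num, by norm_num, a8, ?_⟩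
        simp only [v, K, red]
        simp
        split_ifs <;> omega
      · refine ⟨9, by norm_num, by norm_num, by omega, ?_⟩
        simp only [v, K, red]
        simp
        split_ifs <;> omega

theorem exc_pos {s : ℕ → ℕ} (hs : ∀ i, 1 ≤ s i) (he : Exc s) :
    ∃ i, (i = 5 ∨ i = 8) ∧ s (i - 1) = 1 ∧ s i = 1 ∧ s (i + 1) = 1 := by
  have h4 := hs 4
  have h5 := hs 5
  have h6 := hs 6
  have h7 := hs 7
  have h8 := hs 8
  have h9 := hs 9
  simp only [Exc] at he
  by_cases h : s 4 = 1 ∧ s 5 = 1 ∧ s 6 = 1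
  · exact ⟨5, Or.inl rfl, h.1, h.2.1, h.2.2⟩
  · refine ⟨8, Or.inr rfl, ?_, ?_, ?_⟩
    · show s 7 = 1; omega
    · omega
    · show s 9 = 1; omega

/-- removal of block `2` and removal of the block `i` in the exceptional case -/
theorem exc_v {s t t' : ℕ → ℕ} (hs : ∀ i, 1 ≤ s i) (he : Exc s) {i : ℕ} (hi : i = 5 ∨ i = 8)
    (hi1 : s i = 1) (ht : t = rmL s 2 ∨ t = rmR s 2) (ht' : t' = rmL s i ∨ t' = rmR s i) :
    v t ≠ v t' ∧ w t ≠ w t' := by
  have h4 := hs 4
  have h5 := hs 5
  have h6 := hs 6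
  have h7 := hs 7
  have h8 := hs 8
  have h9 := hs 9
  have h10 := hs 10
  simp only [Exc] at he
  have hKt : K t = 0 := by
    rcases ht with rfl | rfl
    · simp only [K, rmL]; simp; omega
    · simp only [K, rmR]; simp; omega
  have hKt' : K t' = 1 := by
    rcases hi with rfl | rfl <;> rcases ht' with rfl | rfl
    · simp only [K, rmL]; simp; omega
    · simp only [K, rmR]; simp; omega
    · simp only [K, rmL]; simp; omega
    · simp only [K, rmR]; simp; omega
  have hM : KM t = KM t' := by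
    rcases ht with rfl | rfl <;> rcases hi with rfl | rfl <;> rcases ht' with rfl | rfl <;>
      simp [KM, rmL, rmR]
  have hS : t 1 + t 2 + t 3 + t 4 + t 5 + t 6 + t 7 + t 8 + t 9
      = t' 1 + t' 2 + t' 3 + t' 4 + t' 5 + t' 6 + t' 7 + t' 8 + t' 9 := by
    rcases ht with rfl | rfl <;> rcases hi with rfl | rfl <;> rcases ht' with rfl | rfl <;>
      simp [rmL, rmR] <;> omega
  constructor
  · rw [v, v, hKt, hKt', hS]; omega
  · rw [w, w, hKt, hKt', hM]; omega

theorem v_mid_red {s : ℕ → ℕ} {i : ℕ} (hi : 10 ≤ i) : v (red s i) = v s := by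
  have h : ∀ j, j ≤ 9 → red s i j = s j := by
    intro j hj
    simp only [red]; rw [if_neg (by omega)]
  simp only [v, K, h 1 (by norm_num), h 2 (by norm_num), h 3 (by norm_num), h 4 (by norm_num),
    h 5 (by norm_num), h 6 (by norm_num), h 7 (by norm_num), h 8 (by norm_num),
    h 9 (by norm_num)]

theorem v_mid_rm {s t : ℕ → ℕ} (ht : t = rmL s 11 ∨ t = rmR s 11) : v t = v s := by
  rcases ht with rfl | rfl <;> simp [v, K, rmL, rmR]

theorem w_mid {s t t' : ℕ → ℕ} (h10 : s 10 = 1) (h11 : s 11 = 1) (h12 : s 12 = 1)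
    (h14 : s 14 = 1) (ht : t = rmL s 11 ∨ t = rmR s 11)
    (ht' : t' = rmL s 13 ∨ t' = rmR s 13) : w t ≠ w t' := by
  have hK : K t = K t' := by
    rcases ht with rfl | rfl <;> rcases ht' with rfl | rfl <;> simp [K, rmL, rmR]
  have h1 : KM t = 0 := by
    rcases ht with rfl | rfl <;> simp [KM, rmL, rmR] <;> omega
  have h2 : KM t' = 1 := by
    rcases ht' with rfl | rfl <;> simp [KM, rmL, rmR] <;> omega
  rw [w, w, hK, h1, h2]
  omega

end Pool.Agent.L7h44.TW
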