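import Mathlib
import Pool.Agent.L7h44.TW.Shape
import Pool.Agent.L7h44.TW.Size

/-!
# Moves: the blocks of the sets obtained by deleting one element
-/

namespace Pool.Agent.L7h44.TW

/-- `bs` is the list of blocks of the set `X` minus one of its elements -/
def Reach (X : List ℕ) (bs : List (List ℕ)) : Prop := ∃ x ∈ X, blocks (D (X.erase x)) = bs

/-- the size of a block, `1` if there is no such block -/
def sz (bs : List (List ℕ)) (i : ℕ) : ℕ := (bs.map List.length).getD i 1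

/-- the blocks of size at least three -/
def big (bs : List (List ℕ)) : List (List ℕ) := bs.filter (fun V => 3 ≤ V.length)

theorem sz_lt {A B : List (List ℕ)} {j : ℕ} (h : j < A.length) : sz (A ++ B) j = sz A j := by
  rw [sz, sz, List.map_append, List.getD_append _ _ _ _ (by simpa using h)]

theorem sz_ge {A B : List (List ℕ)} {j : ℕ} (h : A.length ≤ j) :
    sz (A ++ B) j = sz B (j - A.length) := by
  rw [sz, sz, List.map_append, List.getD_append_right _ _ _ _ (by simpa using h)]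
  simp

theorem sz_zero (V : List ℕ) (B : List (List ℕ)) : sz (V :: B) 0 = V.length := by
  simp [sz]

theorem sz_succ (V : List ℕ) (B : List (List ℕ)) (n : ℕ) : sz (V :: B) (n + 1) = sz B n := by
  simp [sz]

theorem last_two {Q : List ℕ} (hQ : Q.Pairwise (· < ·)) (h : 2 ≤ Q.length) :
    ∃ W y z, Q = W ++ [y] ++ [z] ∧ y < z := by
  rcases List.eq_nil_or_concat Q with rfl | ⟨Q1, z, rfl⟩
  · simp at h
  · rcases List.eq_nil_or_concat Q1 with rfl | ⟨W, y, rfl⟩
    · simp at h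
    · simp only [List.concat_eq_append] at *
      exact ⟨W, y, z, rfl, (List.pairwise_append.1 hQ).2.2 y (by simp) z (by simp)⟩

theorem two_cases {V : List ℕ} (hs : Vsh V) (hn : V.Nodup) (h2 : 2 ≤ V.length) :
    (∃ a b V0, V = a :: b :: V0 ∧ b < a) ∨ (∃ W y z, V = W ++ [y] ++ [z] ∧ y < z) := by
  obtain ⟨P, Q, rfl, hP, hQ⟩ := hs
  by_cases hQ2 : 2 ≤ Q.length
  · obtain ⟨W, y, z, rfl, hyz⟩ := last_two hQ hQ2
    exact Or.inr ⟨P ++ W, y, z, by simp, hyz⟩
  · match P, hP with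
    | [], _ => simp at h2; omega
    | a :: b :: P', hP =>
      exact Or.inl ⟨a, b, P' ++ Q, rfl, (List.pairwise_cons.1 hP).1 b (by simp)⟩
    | [a], _ =>
      match Q, hQ with
      | [], _ => simp at h2
      | [b], _ =>
        rcases lt_trichotomy a b with h | h | h
        · exact Or.inr ⟨[], a, b, rfl, h⟩
        · subst h; simp at hn
        · exact Or.inl ⟨a, b, [], rfl, h⟩
      | b :: c :: Q', _ => simp at hQ2

theorem block_facts {X V : List ℕ} {Bs1 Bs2 : List (List ℕ)} (hp : X.Pairwise (· < ·))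
    (hL : D X ≠ []) (h : blocks (D X) = Bs1 ++ V :: Bs2) : V ≠ [] ∧ Vsh V ∧ V.Nodup ∧
      ∀ x ∈ V, x ∈ D X := by
  obtain ⟨h1, hV, pre, post, hLe, -, -, -⟩ := replace hL h
  have hsep : Sep V := (D_sep hp).mid hLe
  have hvs := vsh_of_blocks hsep hV
  exact ⟨h1, hvs, hvs.nodup hsep, fun x hx => by rw [hLe]; simp [hx]⟩

theorem reach_reduce {X V : List ℕ} {Bs1 Bs2 : List (List ℕ)} (hp : X.Pairwise (· < ·))
    (hL : D X ≠ []) (h : blocks (D X) = Bs1 ++ V :: Bs2) (h2 : 2 ≤ V.length) :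
    ∃ V', V'.length + 1 = V.length ∧ Reach X (Bs1 ++ V' :: Bs2) := by
  obtain ⟨-, hvs, hnd, -⟩ := block_facts hp hL h
  obtain ⟨h1, hV, pre, post, hLe, hpre, hpost, hrep⟩ := replace hL h
  rcases two_cases hvs hnd h2 with ⟨a, b, V0, rfl, hba⟩ | ⟨W, y, z, rfl, hyz⟩
  · refine ⟨b :: V0, by simp, ?_⟩
    have hb := hrep (b :: V0) (by simp) (hvs.sublist (List.sublist_cons_self _ _)).blocks
      (by simpa using hba.le) (fun x hx => ⟨x, by simpa using hx, le_rfl⟩)
    have hrem : Rem (D X) (pre ++ (b :: V0) ++ post) := by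
      refine ⟨pre, a, (b :: V0) ++ post, by rw [hLe]; simp, by simp, ?_⟩
      rcases hpre with rfl | ⟨pre', P, rfl, hP⟩
      · exact Or.inl rfl
      · exact Or.inr (Or.inr (Or.inl ⟨pre', P, rfl, hP a (by simp)⟩))
    obtain ⟨x, hx, hDx⟩ := D_rem hp hrem
    exact ⟨x, hx, by rw [hDx, hb]⟩
  · refine ⟨W ++ [y], by simp, ?_⟩
    have hb := hrep (W ++ [y]) (by simp) (hvs.sublist (List.sublist_append_left _ _)).blocks
      (fun x hx => ⟨x, by cases W <;> simpa using hx, le_rfl⟩) (by simpa using hyz.le)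
    have hrem : Rem (D X) (pre ++ (W ++ [y]) ++ post) := by
      refine ⟨pre ++ (W ++ [y]), z, post, by rw [hLe]; simp, by simp, ?_⟩
      rcases hpost with rfl | ⟨P, post', rfl, hP⟩
      · exact Or.inr (Or.inl rfl)
      · exact Or.inr (Or.inr (Or.inr ⟨P, post', rfl, hP z (by simp)⟩))
    obtain ⟨x, hx, hDx⟩ := D_rem hp hrem
    exact ⟨x, hx, by rw [hDx, hb]⟩

theorem reach_removal {X V1 V2 : List ℕ} {v : ℕ} {Bs1 Bs2 : List (List ℕ)}
    (hp : X.Pairwise (· < ·)) (h : blocks (D X) = Bs1 ++ V1 :: [v] :: V2 :: Bs2) :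
    ∃ P, Reach X (Bs1 ++ (V1 ++ [P]) :: V2 :: Bs2) ∨ Reach X (Bs1 ++ V1 :: (P :: V2) :: Bs2) := by
  obtain ⟨A, P, Q, B, e, hvP, h1, h2⟩ := removal h
  have hrem : Rem (D X) (A ++ P :: Q :: B) :=
    ⟨A ++ [P], v, Q :: B, by rw [e]; simp, by simp, Or.inr (Or.inr (Or.inl ⟨A, P, rfl, hvP⟩))⟩
  obtain ⟨x, hx, hDx⟩ := D_rem hp hrem
  have hsep : Sep (A ++ P :: Q :: B) := by
    rw [← hDx]; exact D_sep (hp.sublist List.erase_sublist)
  have hPQ : P ≠ Q := by
    rintro rfl
    obtain ⟨b, hb, _⟩ := hsep A P [] B rfl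
    simp at hb
  rcases lt_or_gt_of_ne hPQ with hlt | hgt
  · exact ⟨P, Or.inl ⟨x, hx, by rw [hDx, h1 hlt]⟩⟩
  · exact ⟨Q, Or.inr ⟨x, hx, by rw [hDx, h2 hgt]⟩⟩

theorem reach_rec {X V : List ℕ} {r : ℕ} {Bs1 Bs2 : List (List ℕ)} (hp : X.Pairwise (· < ·))
    (hL : D X ≠ []) (h : blocks (D X) = Bs1 ++ V :: Bs2) (hr : r ∈ core V) :
    Reach X (Bs1 ++ V.erase r :: Bs2) := by
  obtain ⟨-, hvs, hnd, -⟩ := block_facts hp hL h
  obtain ⟨h1, hV, pre, post, hLe, hpre, hpost, hrep⟩ := replace hL h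
  obtain ⟨A, x, y, B, e, hxy⟩ := core_decomp hvs hr
  have hrA : r ∉ A ++ [x] := by
    intro hmem
    rw [e] at hnd
    exact (List.nodup_append.1 hnd).2.2 r hmem r (by simp) rfl
  have e' : V.erase r = (A ++ [x]) ++ y :: B := by
    rw [e, List.erase_append_right _ hrA]; simp
  have hb := hrep (V.erase r) (by rw [e']; simp) (hvs.sublist List.erase_sublist).blocks
    (fun z hz => ⟨z, by rw [e'] at hz; rw [e]; cases A <;> simpa using hz, le_rfl⟩)
    (fun z hz => ⟨z, by
      rw [e'] at hz; rw [e]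
      simpa only [List.getLast?_append, List.getLast?_cons_cons] using hz, le_rfl⟩)
  have hrem : Rem (D X) (pre ++ V.erase r ++ post) := by
    refine ⟨pre ++ (A ++ [x]), r, (y :: B) ++ post, by rw [hLe, e]; simp, by rw [e']; simp, ?_⟩
    rcases hxy with hx | hy
    · exact Or.inr (Or.inr (Or.inl ⟨pre ++ A, x, by simp, hx⟩))
    · exact Or.inr (Or.inr (Or.inr ⟨y, B ++ post, by simp, hy⟩))
  obtain ⟨x, hx, hDx⟩ := D_rem hp hrem
  exact ⟨x, hx, by rw [hDx, hb]⟩

/-! ### Indexed forms -/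

theorem exists_split_at {bs : List (List ℕ)} {i : ℕ} (h : i < bs.length) :
    ∃ Bs1 V Bs2, bs = Bs1 ++ V :: Bs2 ∧ Bs1.length = i := by
  refine ⟨bs.take i, bs[i], bs.drop (i + 1), ?_, ?_⟩
  · simp
  · simp; omega

theorem sz_mid {Bs1 Bs2 : List (List ℕ)} {V : List ℕ} :
    sz (Bs1 ++ V :: Bs2) Bs1.length = V.length := by
  rw [sz_ge le_rfl, Nat.sub_self, sz_zero]

theorem reduce_idx {X : List ℕ} (hp : X.Pairwise (· < ·)) (hL : D X ≠ []) {i : ℕ}
    (hi : i < (blocks (D X)).length) (h2 : 2 ≤ sz (blocks (D X)) i) :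
    ∃ bs', Reach X bs' ∧ bs'.length = (blocks (D X)).length ∧
      sz bs' = red (sz (blocks (D X))) i := by
  obtain ⟨Bs1, V, Bs2, h, rfl⟩ := exists_split_at hi
  rw [h, sz_mid] at h2
  obtain ⟨V', hV', hr⟩ := reach_reduce hp hL h h2
  refine ⟨_, hr, by rw [h]; simp, ?_⟩
  funext j
  rw [h]
  simp only [red]
  rcases lt_trichotomy j Bs1.length with hj | rfl | hj
  · rw [sz_lt hj, sz_lt hj, if_neg (by omega)]
  · rw [sz_mid, sz_mid, if_pos rfl]; omega
  · rw [sz_ge hj.le, sz_ge hj.le, if_neg (by omega)]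
    obtain ⟨d, rfl⟩ := Nat.exists_eq_add_of_lt hj
    rw [show Bs1.length + d + 1 - Bs1.length = d + 1 by omega, sz_succ, sz_succ]

theorem exists_split_three {bs : List (List ℕ)} {i : ℕ} (h1 : 1 ≤ i) (h : i + 1 < bs.length) :
    ∃ Bs1 V1 V V2 Bs2, bs = Bs1 ++ V1 :: V :: V2 :: Bs2 ∧ Bs1.length + 1 = i := by
  obtain ⟨Bs1, V1, C, rfl, h2⟩ := exists_split_at (bs := bs) (i := i - 1) (by omega)
  match C with
  | [] => simp at h; omega
  | [V] => simp at h; omega
  | V :: V2 :: Bs2 => exact ⟨Bs1, V1, V, V2, Bs2, rfl, by omega⟩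

theorem removal_idx {X : List ℕ} (hp : X.Pairwise (· < ·)) {i : ℕ}
    (h1 : 1 ≤ i) (hi : i + 1 < (blocks (D X)).length) (h2 : sz (blocks (D X)) i = 1) :
    ∃ bs', Reach X bs' ∧ bs'.length + 1 = (blocks (D X)).length ∧
      (sz bs' = rmL (sz (blocks (D X))) i ∨ sz bs' = rmR (sz (blocks (D X))) i) ∧
      (sz (blocks (D X)) (i - 1) = 1 → sz (blocks (D X)) (i + 1) = 1 →
        big bs' = big (blocks (D X))) := by
  obtain ⟨Bs1, V1, V, V2, Bs2, h, rfl⟩ := exists_split_three h1 hi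
  have hV : V.length = 1 := by
    rw [h, sz_ge (by omega), show Bs1.length + 1 - Bs1.length = 0 + 1 by omega, sz_succ,
      sz_zero] at h2
    exact h2
  obtain ⟨v, rfl⟩ := List.length_eq_one_iff.1 hV
  have s0 : sz (blocks (D X)) (Bs1.length + 1 - 1) = V1.length := by
    rw [h, Nat.add_sub_cancel, sz_mid]
  have s2 : sz (blocks (D X)) (Bs1.length + 1 + 1) = V2.length := by
    rw [h, sz_ge (by omega), show Bs1.length + 1 + 1 - Bs1.length = 0 + 1 + 1 by omega, sz_succ,
      sz_succ, sz_zero]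
  obtain ⟨P, hr | hr⟩ := reach_removal hp h
  · refine ⟨_, hr, by rw [h]; simp; omega, Or.inl ?_, ?_⟩
    · funext j
      rw [h]
      simp only [rmL]
      rcases lt_trichotomy j Bs1.length with hj | rfl | hj
      · rw [if_pos (by omega), sz_lt hj, sz_lt hj]
      · rw [if_neg (by omega), if_pos rfl, sz_mid, sz_mid]; simp
      · rw [if_neg (by omega), if_neg (by omega)]
        obtain ⟨d, rfl⟩ := Nat.exists_eq_add_of_lt hj
        rw [sz_ge (by omega), sz_ge (by omega),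
          show Bs1.length + d + 1 - Bs1.length = d + 1 by omega,
          show Bs1.length + d + 1 + 1 - Bs1.length = d + 1 + 1 by omega, sz_succ, sz_succ, sz_succ]
    · intro a0 a2
      rw [s0] at a0
      rw [s2] at a2
      rw [h]
      simp [big, a0, a2]
  · refine ⟨_, hr, by rw [h]; simp; omega, Or.inr ?_, ?_⟩
    · funext j
      rw [h]
      simp only [rmR]
      rcases lt_trichotomy j Bs1.length with hj | rfl | hj
      · rw [if_pos (by omega), sz_lt hj, sz_lt hj]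
      · rw [if_pos (by omega), sz_mid, sz_mid]
      · rw [if_neg (by omega)]
        obtain ⟨d, rfl⟩ := Nat.exists_eq_add_of_lt hj
        rw [sz_ge (by omega), sz_ge (by omega),
          show Bs1.length + d + 1 - Bs1.length = d + 1 by omega,
          show Bs1.length + d + 1 + 1 - Bs1.length = d + 1 + 1 by omega, sz_succ, sz_succ, sz_succ]
        cases d with
        | zero => rw [if_pos (by omega), sz_zero, sz_zero]; simp
        | succ d => rw [if_neg (by omega), sz_succ, sz_succ]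
    · intro a0 a2
      rw [s0] at a0
      rw [s2] at a2
      rw [h]
      simp [big, a0, a2]

theorem sz_pos {X : List ℕ} (hp : X.Pairwise (· < ·)) (hL : D X ≠ []) (i : ℕ) :
    1 ≤ sz (blocks (D X)) i := by
  by_cases hi : i < (blocks (D X)).length
  · obtain ⟨Bs1, V, Bs2, h, rfl⟩ := exists_split_at hi
    have := (block_facts hp hL h).1
    rw [h, sz_mid]
    exact List.length_pos_iff.2 this
  · rw [sz, List.getD_eq_default _ _ (by simpa using hi)]

end Pool.Agent.L7h44.TW
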