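import Mathlib
import Pool.Agent.L7h44.TW.Moves

/-!
# The colouring and the stepping-up lemma
-/

namespace Pool.Agent.L7h44.TW

/-- the recorded entries of all blocks, labelled with the rank of their block among the blocks of
size at least three; the pair `(x, j)` is coded as `15 * x + j` -/
def lab (bs : List (List ℕ)) : Finset ℕ :=
  (Finset.range 15).biUnion fun j => (R ((big bs).getD j [])).toFinset.image fun x => 15 * x + j

theorem mem_lab {bs : List (List ℕ)} {c : ℕ} :
    c ∈ lab bs ↔ ∃ j, j < 15 ∧ ∃ x ∈ R ((big bs).getD j []), 15 * x + j = c := by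
  simp [lab]

theorem R_nil : R [] = [] := by simp [R, core]

theorem sum_getD {α : Type*} (f : α → ℕ) (d : α) (hd : f d = 0) : ∀ (l : List α) (n : ℕ),
    l.length ≤ n → ∑ j ∈ Finset.range n, f (l.getD j d) = (l.map f).sum
  | [], n, _ => by simp [hd]
  | a :: l, 0, h => by simp at h
  | a :: l, n + 1, h => by
    rw [Finset.sum_range_succ']
    have := sum_getD f d hd l n (by simpa using h)
    simp only [List.getD_cons_succ, List.getD_cons_zero, List.map_cons, List.sum_cons]
    rw [this, add_comm]

theorem lab_card {bs : List (List ℕ)} (hlen : bs.length ≤ 15) (hn : ∀ V ∈ bs, V.Nodup) :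
    (bs.map List.length).sum ≤ (lab bs).card + 4 * bs.length := by
  have hbig : ∀ j, ((big bs).getD j []).Nodup := by
    intro j
    by_cases hj : j < (big bs).length
    · rw [List.getD_eq_getElem _ _ hj]
      exact hn _ (List.mem_filter.1 (List.getElem_mem hj)).1
    · rw [List.getD_eq_default _ _ (by omega)]; exact List.nodup_nil
  have h1 : (lab bs).card = ∑ j ∈ Finset.range 15, (R ((big bs).getD j [])).length := by
    rw [lab, Finset.card_biUnion]
    · refine Finset.sum_congr rfl fun j _ => ?_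
      rw [Finset.card_image_of_injective, List.toFinset_card_of_nodup (R_nodup (hbig j))]
      intro x y hxy
      simp at hxy
      exact hxy
    · intro i hi j hj hij
      rw [Function.onFun, Finset.disjoint_left]
      intro c hc hc'
      simp only [Finset.mem_image] at hc hc'
      obtain ⟨x, _, hx⟩ := hc
      obtain ⟨y, _, hy⟩ := hc'
      simp at hi hj
      omega
  have hle : (big bs).length ≤ 15 := (List.length_filter_le _ _).trans hlen
  rw [sum_getD (fun V => (R V).length) [] (by simp [R_nil]) _ _ hle] at h1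
  rw [h1]
  clear h1 hle hbig hlen
  induction bs with
  | nil => simp
  | cons V bs ih =>
    have ih := ih (fun W hW => hn W (List.mem_cons_of_mem _ hW))
    have hV := R_length (hn V (by simp))
    by_cases hb : 3 ≤ V.length
    · rw [big, List.filter_cons_of_pos (by simpa using hb)]
      rw [big] at ih
      simp only [List.map_cons, List.sum_cons, List.length_cons]
      omega
    · rw [big, List.filter_cons_of_neg (by simpa using hb)]
      rw [big] at ih
      simp only [List.map_cons, List.sum_cons, List.length_cons]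
      omega

theorem blocks_sum : ∀ L : List ℕ,
    ((blocks L).map List.length).sum + (blocks L).length = L.length + 1
  | [] => by simp [blocks]
  | [a] => by simp [blocks]
  | [a, b] => by simp [blocks]
  | a :: b :: c :: l => by
    by_cases h : a < b ∧ c < b
    · rw [blocks_peak l h]
      have := blocks_sum (c :: l)
      simp at this ⊢
      omega
    · obtain ⟨W, Ws, hW⟩ := List.exists_cons_of_ne_nil (blocks_ne_nil (b :: c :: l))
      have := blocks_sum (b :: c :: l)
      rw [blocks_cons l h hW]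
      rw [hW] at this
      simp at this ⊢
      omega

theorem lab_subset {bs : List (List ℕ)} {N : ℕ} (h : ∀ V ∈ bs, ∀ x ∈ V, x < N) :
    lab bs ⊆ Finset.range (15 * N) := by
  intro c hc
  obtain ⟨j, hj, x, hx, rfl⟩ := mem_lab.1 hc
  by_cases hjl : j < (big bs).length
  · rw [List.getD_eq_getElem _ _ hjl] at hx
    have := h _ (List.mem_filter.1 (List.getElem_mem hjl)).1 x (R_sub hx)
    rw [Finset.mem_range]; omega
  · rw [List.getD_eq_default _ _ (by omega), R_nil] at hx
    simp at hx

/-- erasing a label -/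
theorem lab_erase {bs : List (List ℕ)} (hbs : ∀ V ∈ bs, V.Nodup ∧ Vsh V) {c : ℕ}
    (hc : c ∈ lab bs) : ∃ Bs1 V Bs2 r, bs = Bs1 ++ V :: Bs2 ∧ r ∈ R V ∧
      lab (Bs1 ++ V.erase r :: Bs2) = (lab bs).erase c := by
  obtain ⟨j, hj, r, hr, rfl⟩ := mem_lab.1 hc
  have hjl : j < (big bs).length := by
    by_contra h
    rw [List.getD_eq_default _ _ (by omega), R_nil] at hr
    simp at hr
  obtain ⟨l1, V, l2, hl, rfl⟩ := exists_split_at hjl
  have hV : (big bs).getD l1.length [] = V := by
    rw [hl, List.getD_append_right _ _ _ _ le_rfl]; simp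
  rw [hV] at hr
  have hl' := hl
  rw [big, List.filter_eq_append_iff] at hl'
  obtain ⟨C1, C2, rfl, hC1, hC2⟩ := hl'
  rw [List.filter_eq_cons_iff] at hC2
  obtain ⟨C3, C4, rfl, hC3, hV3, hC4⟩ := hC2
  have hVm : V ∈ C1 ++ (C3 ++ V :: C4) := by simp
  obtain ⟨hVn, hVs⟩ := hbs V hVm
  have h4 := R_len hVn hVs hr
  have hlen : (V.erase r).length = V.length - 1 := List.length_erase_of_mem (R_sub hr)
  have hC3' : C3.filter (fun V => decide (3 ≤ V.length)) = [] := by
    rw [List.filter_eq_nil_iff]; exact hC3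
  have hbig' : big ((C1 ++ C3) ++ V.erase r :: C4) = l1 ++ V.erase r :: l2 := by
    rw [big, List.filter_append, List.filter_append, hC1, hC3', List.filter_cons_of_pos, hC4]
    · simp
    · simp; omega
  refine ⟨C1 ++ C3, V, C4, r, by simp, hr, ?_⟩
  have key : ∀ i x, x ∈ R ((l1 ++ V.erase r :: l2).getD i []) ↔
      x ∈ R ((l1 ++ V :: l2).getD i []) ∧ ¬ (i = l1.length ∧ x = r) := by
    intro i x
    rcases lt_trichotomy i l1.length with hi | rfl | hi
    · rw [List.getD_append _ _ _ _ hi, List.getD_append _ _ _ _ hi]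
      constructor
      · exact fun h => ⟨h, fun h' => by omega⟩
      · exact fun h => h.1
    · rw [List.getD_append_right _ _ _ _ le_rfl, List.getD_append_right _ _ _ _ le_rfl]
      simp only [Nat.sub_self, List.getD_cons_zero, true_and]
      rw [R_erase hVn hVs hr, (R_nodup hVn).mem_erase_iff]
      tauto
    · rw [List.getD_append_right _ _ _ _ hi.le, List.getD_append_right _ _ _ _ hi.le]
      obtain ⟨d, rfl⟩ := Nat.exists_eq_add_of_lt hi
      rw [show l1.length + d + 1 - l1.length = d + 1 by omega, List.getD_cons_succ,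
        List.getD_cons_succ]
      constructor
      · exact fun h => ⟨h, fun h' => by omega⟩
      · exact fun h => h.1
  ext c
  rw [Finset.mem_erase, mem_lab, mem_lab, hbig', hl]
  constructor
  · rintro ⟨i, hi, x, hx, rfl⟩
    rw [key] at hx
    refine ⟨?_, i, hi, x, hx.1, rfl⟩
    intro heq
    exact hx.2 ⟨by omega, by omega⟩
  · rintro ⟨hne, i, hi, x, hx, rfl⟩
    refine ⟨i, hi, x, (key i x).2 ⟨hx, ?_⟩, rfl⟩
    rintro ⟨rfl, rfl⟩
    exact hne rfl

theorem sz_erase {Bs1 Bs2 : List (List ℕ)} {V : List ℕ} {r : ℕ} (h4 : 4 ≤ V.length)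
    (hr : r ∈ V) (i : ℕ) :
    sz (Bs1 ++ V.erase r :: Bs2) i = 1 ↔ sz (Bs1 ++ V :: Bs2) i = 1 := by
  have hlen : (V.erase r).length = V.length - 1 := List.length_erase_of_mem hr
  rcases lt_trichotomy i Bs1.length with hi | rfl | hi
  · rw [sz_lt hi, sz_lt hi]
  · rw [sz_mid, sz_mid]; omega
  · rw [sz_ge hi.le, sz_ge hi.le]
    obtain ⟨d, rfl⟩ := Nat.exists_eq_add_of_lt hi
    rw [show Bs1.length + d + 1 - Bs1.length = d + 1 by omega, sz_succ, sz_succ]

/-- the colour of a list of blocks -/
def col (φ : Finset ℕ → Bool) (bs : List (List ℕ)) : Bool :=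
  if 16 ≤ bs.length then decide (v (sz bs) = 1)
  else xor (φ (lab bs)) (decide (w (sz bs) = 1))

theorem col_ge {φ : Finset ℕ → Bool} {bs : List (List ℕ)} (h : 16 ≤ bs.length) :
    col φ bs = decide (v (sz bs) = 1) := by
  rw [col, if_pos h]

theorem col_lt {φ : Finset ℕ → Bool} {bs : List (List ℕ)} (h : bs.length < 16) :
    col φ bs = xor (φ (lab bs)) (decide (w (sz bs) = 1)) := by
  rw [col, if_neg (by omega)]

theorem lab_congr {bs bs' : List (List ℕ)} (h : big bs = big bs') : lab bs = lab bs' := by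
  rw [lab, lab, h]

theorem v_dec {s t : ℕ → ℕ} (h : v s ≠ v t) : decide (v s = 1) ≠ decide (v t = 1) := by
  have h1 : v s < 2 := Nat.mod_lt _ (by norm_num)
  have h2 : v t < 2 := Nat.mod_lt _ (by norm_num)
  intro he
  have : v s = 1 ↔ v t = 1 := by simpa using he
  omega

theorem w_dec {s t : ℕ → ℕ} (h : w s ≠ w t) : decide (w s = 1) ≠ decide (w t = 1) := by
  have h1 : w s < 2 := Nat.mod_lt _ (by norm_num)
  have h2 : w t < 2 := Nat.mod_lt _ (by norm_num)
  intro he
  have : w s = 1 ↔ w t = 1 := by simpa using he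
  omega

/-- Both colours occur among the sets obtained by deleting one element. -/
theorem both {φ : Finset ℕ → Bool} {a N : ℕ}
    (hφ : ∀ S ⊆ Finset.range (15 * N), a + 1 ≤ S.card →
      ∃ s ∈ S, ∃ t ∈ S, φ (S.erase s) ≠ φ (S.erase t))
    {X : List ℕ} (hp : X.Pairwise (· < ·)) (hX : ∀ x ∈ X, x < 2 ^ N) (hlen : a + 76 ≤ X.length) :
    ∃ bs bs', Reach X bs ∧ Reach X bs' ∧ col φ bs ≠ col φ bs' := by
  have hL : D X ≠ [] := by
    intro h
    have := D_length X
    rw [h] at this
    simp at this
    omega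
  set s := sz (blocks (D X)) with hs
  have hpos : ∀ i, 1 ≤ s i := fun i => sz_pos hp hL i
  rcases lt_trichotomy (blocks (D X)).length 16 with hm | hm | hm
  · -- few blocks
    have hfacts : ∀ V ∈ blocks (D X), V.Nodup ∧ Vsh V ∧ ∀ x ∈ V, x ∈ D X := by
      intro V hV
      obtain ⟨Bs1, Bs2, h⟩ := List.append_of_mem hV
      obtain ⟨-, h2, h3, h4⟩ := block_facts hp hL h
      exact ⟨h3, h2, h4⟩
    have hcard := lab_card (bs := blocks (D X)) (by omega) (fun V hV => (hfacts V hV).1)
    have hsum := blocks_sum (D X)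
    have hDl := D_length X
    have hsub : lab (blocks (D X)) ⊆ Finset.range (15 * N) :=
      lab_subset (fun V hV x hx => D_lt hp hX x ((hfacts V hV).2.2 x hx))
    obtain ⟨c, hc, c', hc', hne⟩ := hφ _ hsub (by omega)
    have key : ∀ c ∈ lab (blocks (D X)), ∃ bs, Reach X bs ∧
        col φ bs = xor (φ ((lab (blocks (D X))).erase c)) (decide (w s = 1)) := by
      intro c hc
      obtain ⟨Bs1, V, Bs2, r, e, hr, hlab⟩ :=
        lab_erase (fun V hV => ⟨(hfacts V hV).1, (hfacts V hV).2.1⟩) hc
      obtain ⟨-, h2, h3, -⟩ := block_facts hp hL e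
      refine ⟨_, reach_rec hp hL e (mem_core_of_mem_R hr), ?_⟩
      have hl : (Bs1 ++ V.erase r :: Bs2).length < 16 := by
        rw [e] at hm; simp at hm ⊢; omega
      rw [col_lt hl, hlab]
      have hw : w (sz (Bs1 ++ V.erase r :: Bs2)) = w s := by
        rw [hs, e]
        exact w_congr (sz_erase (R_len h3 h2 hr) (R_sub hr))
      rw [hw]
    obtain ⟨bs, h1, h2⟩ := key c hc
    obtain ⟨bs', h1', h2'⟩ := key c' hc'
    refine ⟨bs, bs', h1, h1', ?_⟩
    rw [h2, h2']
    intro he
    exact hne (by simpa using he)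
  · -- sixteen blocks
    by_cases he : Exc s
    · obtain ⟨i, hi, a1, a2, a3⟩ := exc_pos hpos he
      obtain ⟨bs, r1, r2, r3, r4⟩ := removal_idx hp (i := 2) (by norm_num) (by omega)
        he.1.2.1
      obtain ⟨bs', r1', r2', r3', r4'⟩ := removal_idx hp (i := i) (by omega)
        (by omega) a2
      refine ⟨bs, bs', r1, r1', ?_⟩
      rw [col_lt (by omega), col_lt (by omega), lab_congr (r4 he.1.1 he.1.2.2),
        lab_congr (r4' a1 a3)]
      intro h
      exact w_dec (exc_v hpos he hi a2 r3 r3').2 (by simpa using h)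
    · obtain ⟨i, i1, i2, i3, i4⟩ := flip_reduce hpos he
      obtain ⟨bs, r1, r2, r3⟩ := reduce_idx hp hL (i := i) (by omega) i3
      by_cases hM : s 10 = 1 ∧ s 11 = 1 ∧ s 12 = 1 ∧ s 13 = 1 ∧ s 14 = 1
      · obtain ⟨m0, m1, m2, m3, m4⟩ := hM
        obtain ⟨bs, r1, r2, r3, r4⟩ := removal_idx hp (i := 11) (by norm_num) (by omega) m1
        obtain ⟨bs', r1', r2', r3', r4'⟩ := removal_idx hp (i := 13) (by norm_num) (by omega) m3
        refine ⟨bs, bs', r1, r1', ?_⟩
        rw [col_lt (by omega), col_lt (by omega), lab_congr (r4 m0 m2), lab_congr (r4' m2 m4)]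
        intro h
        exact w_dec (w_mid m0 m1 m2 m4 r3 r3') (by simpa using h)
      · have : ∃ j, 10 ≤ j ∧ j ≤ 14 ∧ 2 ≤ s j := by
          have h10 := hpos 10
          have h11 := hpos 11
          have h12 := hpos 12
          have h13 := hpos 13
          have h14 := hpos 14
          by_contra hcon
          push Not at hcon
          have := hcon 10 (by norm_num) (by norm_num)
          have := hcon 11 (by norm_num) (by norm_num)
          have := hcon 12 (by norm_num) (by norm_num)
          have := hcon 13 (by norm_num) (by norm_num)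
          have := hcon 14 (by norm_num) (by norm_num)
          exact hM ⟨by omega, by omega, by omega, by omega, by omega⟩
        obtain ⟨j, j1, j2, j3⟩ := this
        obtain ⟨bs', r1', r2', r3'⟩ := reduce_idx hp hL (i := j) (by omega) j3
        refine ⟨bs, bs', r1, r1', ?_⟩
        rw [col_ge (by omega), col_ge (by omega), r3, r3', ← hs]
        refine v_dec ?_
        rw [v_mid_red j1]
        exact i4
  · -- many blocks
    by_cases he : Exc s
    · obtain ⟨i, hi, a1, a2, a3⟩ := exc_pos hpos he
      obtain ⟨bs, r1, r2, r3, r4⟩ := removal_idx hp (i := 2) (by norm_num) (by omega)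
        he.1.2.1
      obtain ⟨bs', r1', r2', r3', r4'⟩ := removal_idx hp (i := i) (by omega)
        (by omega) a2
      refine ⟨bs, bs', r1, r1', ?_⟩
      rw [col_ge (by omega), col_ge (by omega)]
      exact v_dec (exc_v hpos he hi a2 r3 r3').1
    · obtain ⟨i, i1, i2, i3, i4⟩ := flip_reduce hpos he
      obtain ⟨bs, r1, r2, r3⟩ := reduce_idx hp hL (i := i) (by omega) i3
      have : ∃ bs', Reach X bs' ∧ 16 ≤ bs'.length ∧ v (sz bs') = v s := by
        by_cases h11 : s 11 = 1
        · obtain ⟨bs', r1', r2', r3', r4'⟩ := removal_idx hp (i := 11) (by norm_num) (by omega) h11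
          exact ⟨bs', r1', by omega, v_mid_rm r3'⟩
        · obtain ⟨bs', r1', r2', r3'⟩ := reduce_idx hp hL (i := 11) (by omega)
            (by show 2 ≤ s 11; have := hpos 11; omega)
          exact ⟨bs', r1', by omega, by rw [r3', v_mid_red (by norm_num)]⟩
      obtain ⟨bs', r1', r2', r3'⟩ := this
      refine ⟨bs, bs', r1, r1', ?_⟩
      rw [col_ge (by omega), col_ge (by omega), r3, ← hs]
      refine v_dec ?_
      rw [r3']
      exact i4

/-- there is a 2-colouring of the finite sets such that every set `S` of more than `a` numbers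
`< M` contains two sets `S \ {s}`, `S \ {t}` of different colours -/
def Good (a M : ℕ) : Prop :=
  ∃ φ : Finset ℕ → Bool, ∀ S ⊆ Finset.range M, a + 1 ≤ S.card →
    ∃ s ∈ S, ∃ t ∈ S, φ (S.erase s) ≠ φ (S.erase t)

theorem sort_erase (S : Finset ℕ) (x : ℕ) :
    (S.erase x).sort (· ≤ ·) = (S.sort (· ≤ ·)).erase x := by
  have hn : (S.sort (· ≤ ·)).Nodup := S.sort_nodup (· ≤ ·)
  have h1 : ((S.sort (· ≤ ·)).erase x).toFinset = S.erase x := by
    ext y
    rw [List.mem_toFinset, hn.mem_erase_iff, Finset.mem_erase, Finset.mem_sort]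
  rw [← h1]
  refine (List.toFinset_sort (· ≤ ·) (hn.erase x)).2 ?_
  exact (S.pairwise_sort (· ≤ ·)).sublist List.erase_sublist

/-- the stepping-up lemma -/
theorem step {a N : ℕ} (h : Good a (15 * N)) : Good (a + 75) (2 ^ N) := by
  obtain ⟨φ, hφ⟩ := h
  refine ⟨fun S => col φ (blocks (D (S.sort (· ≤ ·)))), ?_⟩
  intro S hS hc
  have hp : (S.sort (· ≤ ·)).Pairwise (· < ·) := by
    have := S.sortedLT_sort
    exact this.pairwise
  obtain ⟨bs, bs', ⟨x, hx, h1⟩, ⟨y, hy, h2⟩, hne⟩ := both hφ hp
    (fun x hx => Finset.mem_range.1 (hS ((Finset.mem_sort (· ≤ ·)).1 hx)))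
    (by rw [Finset.length_sort]; omega)
  refine ⟨x, (Finset.mem_sort (· ≤ ·)).1 hx, y, (Finset.mem_sort (· ≤ ·)).1 hy, ?_⟩
  simp only [sort_erase]
  rw [h1, h2]
  exact hne

end Pool.Agent.L7h44.TW
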