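import Mathlib

/-!
# The upper bound of Erdős and Rado

`Arr k n`: every 2-colouring of the finite sets of numbers has a set of `k + 1` numbers `< n` all
of whose `k`-subsets have the same colour.
-/

namespace Pool.Agent.L7h44.TW

/-- the arrow relation for `k`-subsets and monochromatic `(k + 1)`-sets -/
def Arr (k n : ℕ) : Prop :=
  ∀ c : Finset ℕ → Bool, ∃ S ⊆ Finset.range n, S.card = k + 1 ∧
    ∃ b, ∀ T ⊆ S, T.card = k → c T = b

theorem arr_zero : Arr 0 1 := by
  intro c
  refine ⟨{0}, by simp, rfl, c ∅, ?_⟩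
  intro T _ hT
  rw [Finset.card_eq_zero.1 hT]

/-- one step in the construction of an end-homogeneous set -/
theorem eh_step (c : Finset ℕ → Bool) (X B : Finset ℕ) (c' : Finset ℕ → Bool) (g : ℕ)
    (h1 : ∀ x ∈ X, ∀ y ∈ B, x < y)
    (h2 : ∀ T ⊆ X, ∀ z ∈ X ∪ B, (∀ t ∈ T, t < z) → c (insert z T) = c' T)
    (hB : 2 ^ (2 ^ X.card) * g + 1 ≤ B.card) :
    ∃ (X' B' : Finset ℕ) (c'' : Finset ℕ → Bool), X'.card = X.card + 1 ∧ X' ⊆ X ∪ B ∧ B' ⊆ B ∧
      g ≤ B'.card ∧ (∀ x ∈ X', ∀ y ∈ B', x < y) ∧
      (∀ T ⊆ X', ∀ z ∈ X' ∪ B', (∀ t ∈ T, t < z) → c (insert z T) = c'' T) := by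
  classical
  have hne : B.Nonempty := by
    rw [← Finset.card_pos]; omega
  set x := B.min' hne with hx
  have hxB : x ∈ B := B.min'_mem hne
  have hxX : x ∉ X := fun h => lt_irrefl _ (h1 x h x hxB)
  set f : ℕ → Finset (Finset ℕ) := fun y =>
    X.powerset.filter (fun T => c (insert y (insert x T)) = true) with hf
  have hmaps : ∀ y ∈ B.erase x, f y ∈ X.powerset.powerset := by
    intro y _
    rw [Finset.mem_powerset]
    exact Finset.filter_subset _ _
  have hcard : X.powerset.powerset.card * g ≤ (B.erase x).card := by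
    rw [Finset.card_powerset, Finset.card_powerset, Finset.card_erase_of_mem hxB]
    omega
  obtain ⟨F, _, hF⟩ := Finset.exists_le_card_fiber_of_mul_le_card_of_maps_to hmaps
    ⟨∅, by simp⟩ hcard
  have hB'B : (B.erase x).filter (fun y => f y = F) ⊆ B :=
    (Finset.filter_subset _ _).trans (Finset.erase_subset _ _)
  have hxlt : ∀ y ∈ (B.erase x).filter (fun y => f y = F), x < y := by
    intro y hy
    have hy' := Finset.mem_erase.1 (Finset.mem_filter.1 hy).1
    exact lt_of_le_of_ne (Finset.min'_le _ _ hy'.2) (Ne.symm hy'.1)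
  refine ⟨insert x X, (B.erase x).filter (fun y => f y = F),
    fun T => if x ∈ T then decide (T.erase x ∈ F) else c' T, ?_, ?_, hB'B, hF, ?_, ?_⟩
  · rw [Finset.card_insert_of_notMem hxX]
  · intro y hy
    rcases Finset.mem_insert.1 hy with rfl | hy
    · exact Finset.mem_union_right _ hxB
    · exact Finset.mem_union_left _ hy
  · intro y hy z hz
    rcases Finset.mem_insert.1 hy with rfl | hy
    · exact hxlt z hz
    · exact h1 y hy z (hB'B hz)
  · intro T hT z hz hTz
    by_cases hxT : x ∈ T
    · simp only [hxT, if_true]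
      have hxz := hTz x hxT
      have hzB : z ∈ (B.erase x).filter (fun y => f y = F) := by
        rcases Finset.mem_union.1 hz with h | h
        · rcases Finset.mem_insert.1 h with rfl | h
          · exact absurd hxz (lt_irrefl _)
          · exact absurd (h1 z h x hxB) (by omega)
        · exact h
      have hfz := (Finset.mem_filter.1 hzB).2
      have hTX : T.erase x ⊆ X := by
        intro y hy
        have := Finset.mem_erase.1 hy
        rcases Finset.mem_insert.1 (hT this.2) with h | h
        · exact absurd h this.1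
        · exact h
      have hiff : T.erase x ∈ F ↔ c (insert z T) = true := by
        rw [← hfz, hf]
        simp only [Finset.mem_filter, Finset.mem_powerset]
        rw [Finset.insert_erase hxT]
        exact ⟨fun h => h.2, fun h => ⟨hTX, h⟩⟩
      by_cases hc : c (insert z T) = true
      · rw [hc, decide_eq_true (hiff.2 hc)]
      · rw [Bool.not_eq_true] at hc
        rw [hc]
        symm
        rw [decide_eq_false_iff_not, hiff, hc]
        simp
    · simp only [hxT, if_false]
      have hTX : T ⊆ X := by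
        intro y hy
        rcases Finset.mem_insert.1 (hT hy) with h | h
        · rw [h] at hy; exact absurd hy hxT
        · exact h
      refine h2 T hTX z ?_ hTz
      rcases Finset.mem_union.1 hz with h | h
      · rcases Finset.mem_insert.1 h with rfl | h
        · exact Finset.mem_union_right _ hxB
        · exact Finset.mem_union_left _ h
      · exact Finset.mem_union_right _ (hB'B h)

theorem eh (c : Finset ℕ → Bool) (n : ℕ) : ∀ i, i ≤ n → ∃ (X B : Finset ℕ) (c' : Finset ℕ → Bool),
    X.card = i ∧ X ∪ B ⊆ Finset.range (2 ^ (2 ^ n + n)) ∧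
    2 ^ (2 ^ n - 2 ^ i + (n - i)) ≤ B.card ∧ (∀ x ∈ X, ∀ y ∈ B, x < y) ∧
    (∀ T ⊆ X, ∀ z ∈ X ∪ B, (∀ t ∈ T, t < z) → c (insert z T) = c' T) := by
  intro i
  induction i with
  | zero =>
    intro _
    -- the empty set `X`; only `T = ∅` has to be considered
    obtain ⟨b, B, hB, hBc, hb⟩ : ∃ b : Bool, ∃ B ⊆ Finset.range (2 ^ (2 ^ n + n)),
        2 ^ (2 ^ n - 1 + n) ≤ B.card ∧ ∀ y ∈ B, c {y} = b := by
      have hmaps : ∀ y ∈ Finset.range (2 ^ (2 ^ n + n)), c {y} ∈ (Finset.univ : Finset Bool) :=
        fun _ _ => Finset.mem_univ _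
      have h1 : 1 ≤ 2 ^ n := Nat.one_le_two_pow
      have hcard : (Finset.univ : Finset Bool).card * 2 ^ (2 ^ n - 1 + n)
          ≤ (Finset.range (2 ^ (2 ^ n + n))).card := by
        rw [Finset.card_univ, Fintype.card_bool, Finset.card_range, ← pow_succ']
        exact Nat.pow_le_pow_right (by norm_num) (by omega)
      obtain ⟨b, _, hb⟩ := Finset.exists_le_card_fiber_of_mul_le_card_of_maps_to hmaps
        ⟨true, Finset.mem_univ _⟩ hcard
      exact ⟨b, _, Finset.filter_subset _ _, hb, fun y hy => (Finset.mem_filter.1 hy).2⟩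
    refine ⟨∅, B, fun _ => b, rfl, by simpa using hB, by simpa using hBc, by simp, ?_⟩
    intro T hT z hz _
    rw [Finset.subset_empty.1 hT]
    rw [Finset.empty_union] at hz
    exact hb z hz
  | succ i ih =>
    intro hi
    obtain ⟨X, B, c', hX, hXB, hB, h1, h2⟩ := ih (by omega)
    have hpow : 2 ^ (i + 1) ≤ 2 ^ n := Nat.pow_le_pow_right (by norm_num) hi
    have hps : 2 ^ (i + 1) = 2 ^ i + 2 ^ i := by rw [pow_succ]; ring
    obtain ⟨m, hm⟩ : ∃ m, m = 2 ^ n - 2 ^ (i + 1) + (n - (i + 1)) := ⟨_, rfl⟩
    have e : 2 ^ n - 2 ^ i + (n - i) = 2 ^ i + m + 1 := by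
      rw [hm]
      clear hm h1 h2 hB hXB
      generalize 2 ^ n = q at *
      generalize 2 ^ (i + 1) = r at *
      generalize 2 ^ i = p at *
      omega
    have hneed : 2 ^ (2 ^ X.card) * 2 ^ m + 1 ≤ B.card := by
      rw [hX, ← pow_add]
      rw [e, pow_succ] at hB
      have : 1 ≤ 2 ^ (2 ^ i + m) := Nat.one_le_two_pow
      omega
    rw [← hm]
    obtain ⟨X', B', c'', a1, a2, a3, a4, a5, a6⟩ := eh_step c X B c' (2 ^ m) h1 h2 hneed
    refine ⟨X', B', c'', by omega, ?_, a4, a5, a6⟩
    refine Finset.union_subset (a2.trans hXB) ?_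
    exact (a3.trans Finset.subset_union_right).trans hXB

theorem arr_succ {k n : ℕ} (h : Arr k n) : Arr (k + 1) (2 ^ (2 ^ n + n)) := by
  intro c
  obtain ⟨X, B, c', hX, hXB, hB, h1, h2⟩ := eh c n n le_rfl
  have hne : B.Nonempty := by
    rw [← Finset.card_pos]
    exact lt_of_lt_of_le (by positivity) hB
  obtain ⟨y, hy⟩ := hne
  -- transport the arrow relation to `X`
  have hXiso : ∃ f : ℕ → ℕ, Set.InjOn f (Finset.range n) ∧ (Finset.range n).image f = X := by
    have e : Fin n ≃ X := (Fintype.equivFinOfCardEq (by simpa using hX)).symm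
    refine ⟨fun i => if h : i < n then (e ⟨i, h⟩ : ℕ) else 0, ?_, ?_⟩
    · intro i hi j hj hij
      simp only [Finset.coe_range, Set.mem_Iio] at hi hj
      simp only [hi, hj, dif_pos] at hij
      have := e.injective (Subtype.ext hij)
      simpa using this
    · ext z
      simp only [Finset.mem_image, Finset.mem_range]
      constructor
      · rintro ⟨i, hi, rfl⟩
        simp only [hi, dif_pos]
        exact (e ⟨i, hi⟩).2
      · intro hz
        obtain ⟨i, hi⟩ := e.surjective ⟨z, hz⟩
        exact ⟨i, i.2, by simp [hi]⟩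
  obtain ⟨f, hf, hfX⟩ := hXiso
  obtain ⟨S, hS, hSc, b, hb⟩ := h (fun T => c' (T.image f))
  have hfS : Set.InjOn f S := hf.mono (by exact_mod_cast hS)
  have hSX : S.image f ⊆ X := by
    rw [← hfX]; exact Finset.image_subset_image hS
  have hyS : y ∉ S.image f := fun hmem => lt_irrefl _ (h1 y (hSX hmem) y hy)
  refine ⟨insert y (S.image f), ?_, ?_, b, ?_⟩
  · refine Finset.insert_subset (hXB (Finset.mem_union_right _ hy)) ?_
    exact (hSX.trans Finset.subset_union_left).trans hXB
  · rw [Finset.card_insert_of_notMem hyS, Finset.card_image_of_injOn hfS, hSc]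
  · intro T hT hTc
    have hTne : T.Nonempty := by rw [← Finset.card_pos]; omega
    set z := T.max' hTne with hz
    have hzT : z ∈ T := T.max'_mem hTne
    have hT0c : (T.erase z).card = k := by rw [Finset.card_erase_of_mem hzT]; omega
    have hlt : ∀ t ∈ T.erase z, t < z := by
      intro t ht
      have := Finset.mem_erase.1 ht
      exact lt_of_le_of_ne (Finset.le_max' _ _ this.2) this.1
    have hT0S : T.erase z ⊆ S.image f := by
      intro t ht
      have ht' := Finset.mem_erase.1 ht
      rcases Finset.mem_insert.1 (hT ht'.2) with h | h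
      · -- `t = y` is impossible since `t < z`
        exfalso
        have htz := hlt t ht
        rcases Finset.mem_insert.1 (hT hzT) with h' | h'
        · omega
        · have := h1 z (hSX h') y hy
          omega
      · exact h
    have hzXB : z ∈ X ∪ B := by
      rcases Finset.mem_insert.1 (hT hzT) with h' | h'
      · rw [h']; exact Finset.mem_union_right _ hy
      · exact Finset.mem_union_left _ (hSX h')
    have h3 := h2 (T.erase z) (hT0S.trans hSX) z hzXB hlt
    rw [Finset.insert_erase hzT] at h3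
    rw [h3]
    -- pull back
    set U := S.filter (fun i => f i ∈ T.erase z) with hU
    have hUim : U.image f = T.erase z := by
      ext t
      simp only [hU, Finset.mem_image, Finset.mem_filter]
      constructor
      · rintro ⟨i, ⟨_, hi⟩, rfl⟩; exact hi
      · intro ht
        obtain ⟨i, hi, rfl⟩ := Finset.mem_image.1 (hT0S ht)
        exact ⟨i, ⟨hi, ht⟩, rfl⟩
    have hUS : U ⊆ S := Finset.filter_subset _ _
    have hUc : U.card = k := by
      rw [← hT0c, ← hUim, Finset.card_image_of_injOn (hfS.mono (by exact_mod_cast hUS))]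
    have := hb U hUS hUc
    simp only [hUim] at this
    exact this

end Pool.Agent.L7h44.TW
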